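import Pool.Agent.Lib.MP_5c318e_ag.C.CDefs
import Pool.Agent.Lib.MP_5c318e_ag.S.PBas
import Pool.Agent.Lib.MP_5c318e_ag.S.ODefs
import Pool.Agent.Lib.MP_5c318e_ag.N.Det
/-! The set-up of a family with its norms, tensors on fibre powers, the outputs of the main steps. -/
set_option autoImplicit false
namespace Pool.Agent.Lib.MP_5c318e_ag
open MeasureTheory Set Filter Topology Matrix
open scoped ENNReal
noncomputable section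

variable {δ ν K M : Type} [Fintype δ] [DecidableEq δ] [Fintype ν] [DecidableEq ν]
  [Field K] [Algebra ℂ K] [Field M] [Algebra ℂ M] [Algebra K M]

/-- the values of the frame on a fibre -/
def Rel.fr {B : Cht δ K} (T : Rel B ν M) {r : ℕ} (τ : Fin r → T.X.O) (b : Pt B.O) (p : T.Fib b) :
    Fin r → ℂ := fun i => p.1 (τ i)

/-- SEC 0: the set-up. All bounds hold at EVERY point of the base chart. -/
structure Dat (δ K ν M : Type) [Fintype δ] [DecidableEq δ] [Fintype ν] [DecidableEq ν]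
    [Field K] [Algebra ℂ K] [Field M] [Algebra ℂ M] [Algebra K M] where
  hK : SmoothModel ℂ K
  hM : SmoothModel K M
  B : Cht δ K
  T : Fam B ν M
  m : ℕ
  hm : 3 ≤ m
  r : ℕ
  hr : 0 < r
  τ : Fin r → T.X.O
  span : ∀ φ, Plu T.dx m φ ↔ φ ∈ Submodule.span K (range fun i => (τ i : M))
  ind : LinearIndependent K fun i => (τ i : M)
  k : ℕ
  hk : 0 < k
  η : B.O
  unit : IsUnit η
  plu : Plu B.der k (η : K)
  cov : ∀ b : Pt B.O, MvPolynomial.map (b.hom : B.O →+* ℂ) T.finX.Δ ≠ 0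
  indF : ∀ (b : Pt B.O) (U : Set (T.Fib b)), IsOpen U → U.Nonempty → ∀ a : Fin r → ℂ,
    (∀ p ∈ U, a ⬝ᵥ T.fr τ b p = 0) → a = 0
  up : ∃ u : Pt B.O → ℝ, Md B.siz u ∧
    ∀ b, N.nB (T.fib b).μ (T.fr τ b) (2 / m) ≤ ENNReal.ofReal (u b)
  low : ∃ u : Pt B.O → ℝ, Md B.siz u ∧ ∀ b (a : Fin r → ℂ),
    ‖a‖ₑ ^ (2 / m : ℝ) ≤ ENNReal.ofReal (u b) * N.nN (T.fib b).μ (T.fr τ b) (2 / m) a
  lct : ∃ c0 : ℝ, 0 < c0 ∧ ∀ c, 0 < c → c ≤ c0 → ∀ Q : Set (Pt B.O), IsCompact Q →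
    ∃ C : ℝ≥0∞, C ≠ ⊤ ∧ ∀ b ∈ Q, N.Lct (T.fib b).μ (T.fr τ b) (2 / m) c C
  fin : ∫⁻ b, ‖b η‖ₑ ^ (2 / k : ℝ) ∂B.D.μ < ⊤
  ac : ∀ x : M, IsAlgebraic K x → x ∈ range (algebraMap K M)
  mem : ∀ η1, Plu B.der k η1 → η1 ∈ B.O

namespace Dat

variable (d : Dat δ K ν M)

/-- the measure on the fibre -/
abbrev μ (b : Pt d.B.O) : Measure (d.T.Fib b) := (d.T.fib b).μ
/-- the frame -/
abbrev f (b : Pt d.B.O) : d.T.Fib b → Fin d.r → ℂ := d.T.fr d.τ b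
/-- `N_y(a)` -/
def Nn (b : Pt d.B.O) (a : Fin d.r → ℂ) : ℝ := (N.nN (d.μ b) (d.f b) (2 / d.m) a).toReal
/-- `D(y)` -/
def Dd (b : Pt d.B.O) : ℝ := (N.nD (d.μ b) (d.f b) (2 / d.m)).toReal

/-- `o_v(g; T) ≥ n` in the weak form: `|g|² D^T = O(|z|^(2n - ε))` near general points of `z = 0` -/
def Ov (C : Cht δ K) (i0 : δ) (σ : Tr C.O d.B.O) (g : K) (T n : ℝ) : Prop :=
  ∃ e : C.O, ¬ C.z i0 ∣ e ∧ ∀ c0 : Pt C.O, c0 (C.z i0) = 0 → c0 e ≠ 0 → ∀ ε : ℝ, 0 < ε → ∃ A : ℝ,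
    ∀ᶠ c in 𝓝 c0, c (C.z i0) ≠ 0 →
      ‖(σ.map c).ev g‖ ^ 2 * d.Dd (σ.map c) ^ T ≤ A * ‖c (C.z i0)‖ ^ (2 * n - ε)

/-- `ord_v η = 0` -/
def E0 (C : Cht δ K) (v : ValuationSubring K) : Prop :=
  v.valuation ((d.η : K) / Jac d.B.der (fun i => (C.z i : K)) ^ d.k) = 1

/-- there is a chart at `v`, glued to the base chart along `z ≠ 0`, with the property `P` -/
def ExV (v : ValuationSubring K) (P : (C : Cht δ K) → δ → Tr C.O d.B.O → Prop) : Prop :=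
  ∃ (C : Cht δ K) (i0 : δ) (σ : Tr C.O d.B.O), C.At v i0 ∧ σ.h = C.z i0 ∧ P C i0 σ

/-- tensors with coefficients in the ring of the base chart -/
abbrev Ten (κ : Type) : Type := (κ → Fin d.r) → d.B.O

variable {κ : Type} [Fintype κ] [DecidableEq κ]

/-- the value of a tensor at a tuple of points of one fibre -/
def tev (U : d.Ten κ) (b : Pt d.B.O) (p : κ → d.T.Fib b) : ℂ :=
  ∑ I, b (U I) * ∏ j, d.f b (p j) (I j)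
/-- the restriction to the diagonal -/
def diag (U : d.Ten κ) : M := ∑ I, algebraMap K M (U I) * ∏ j, (d.τ (I j) : M)
/-- the form of degree `card κ` of the tensor at `b` -/
def tq (U : d.Ten κ) (b : Pt d.B.O) (ξ : Fin d.r → ℂ) : ℂ := ∑ I, b (U I) * ∏ j, ξ (I j)
/-- the slotwise quasi-norm -/
def Nx (U : d.Ten κ) (b : Pt d.B.O) : ℝ≥0∞ :=
  ∫⁻ p, ‖d.tev U b p‖ₑ ^ (2 / d.m : ℝ) ∂(Measure.pi fun _ : κ => d.μ b)

/-- the antisymmetric tensor: `tev sg b p = dt (f b) p` -/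
def sg : d.Ten (Fin d.r) := fun I => (Matrix.of fun j i => if I j = i then 1 else 0).det
/-- the product of copies of `U` on the blocks of slots given by `e` -/
def blk {β ι : Type} [Fintype β] (U : d.Ten κ) (e : β × κ ≃ ι) : d.Ten ι :=
  fun I => ∏ b, U fun k => I (e (b, k))

/-- `d'` is `d` over a smaller base chart, with any coordinates -/
structure Re {δ' : Type} [Fintype δ'] [DecidableEq δ'] (d : Dat δ K ν M) (d' : Dat δ' K ν M) :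
    Prop where
  sub : d'.T.toRel.Sub d.T.toRel
  m : d'.m = d.m
  k : d'.k = d.k
  r : d'.r = d.r
  τ : ∀ i, (d'.τ i : M) = d.τ (i.cast r)
  η : ∃ e : δ' ≃ δ, (d.η : K) = d'.η * Jac d.B.der (fun i => (d'.B.z (e.symm i) : K)) ^ d.k

/-- the inclusion of the smaller chart -/
def Re.ρ {δ' : Type} [Fintype δ'] [DecidableEq δ'] {d : Dat δ K ν M} {d' : Dat δ' K ν M}
    (h : d.Re d') (b : Pt d'.B.O) : Pt d.B.O := b.res (Subalgebra.inclusion h.sub.le)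

end Dat

/-- OUTPUT of sec 5 -/
def Dat.KeyOut (d : Dat δ K ν M) : Prop :=
  ∀ V : Finset (ValuationSubring K), (∀ v ∈ V, IsDivisorial ℂ K v) → ∀ l : ℕ, 0 < l → ∃ C2 : ℝ,
    ∀ b0 : ℕ, ∃ (b : ℕ) (p : d.B.O), b0 ≤ b ∧ l ∣ b ∧ p ≠ 0 ∧ ∀ v ∈ V,
      d.ExV v fun C i0 σ => d.Ov C i0 σ p b (-C2) ∧ (d.E0 C v → d.Ov C i0 σ p b 0)

section base
variable {ε γ : Type} [Fintype ε] [DecidableEq ε] [Fintype γ] [DecidableEq γ]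
namespace Dat
variable (d : Dat (ε ⊕ γ) K ν M)

/-- the first group of coordinates -/
def w (b : Pt d.B.O) : ε → ℂ := fun i => d.B.D.π b (Sum.inl i)

/-- locally constant on the fibres of `w` -/
def Hor {α : Type} (u : Pt d.B.O → α) : Prop := ∀ b, ∀ᶠ b' in 𝓝 b, d.w b' = d.w b → u b' = u b

/-- `v` is trivial on `ℂ(w)` -/
def Triv (v : ValuationSubring K) : Prop := ∀ q : MvPolynomial ε ℂ, q ≠ 0 →
  v.valuation (MvPolynomial.aeval (fun i => (d.B.z (Sum.inl i) : K)) q) = 1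

/-- OUTPUT of sec 3 and 5 for the general fibre: `a0 = m a1` -/
structure BaseOut where
  g : d.B.O
  unit : IsUnit g
  a1 : ℕ
  pos : 0 < a1
  flat : d.Hor fun b => ‖b g‖ ^ 2 * d.Dd b ^ (d.m * a1)
  pay : ∀ (V : Finset (ValuationSubring K)) (n : ℕ), (∀ v ∈ V, IsDivisorial ℂ K v) →
    ∃ (l : ℕ) (P : d.B.O), 0 < l ∧ P ≠ 0 ∧ ∀ v ∈ V, d.ExV v fun C i0 σ => d.E0 C v →
      d.Ov C i0 σ P (d.m * a1 * l : ℕ) 0 ∧ (¬ d.Triv v → d.Ov C i0 σ P (d.m * a1 * l : ℕ) n)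

/-- OUTPUT of (6a), (6b) -/
structure ParData (g : d.B.O) (a1 : ℕ) : Prop where
  fr : ∀ b0, ∃ (U : Set (Pt d.B.O)) (A : Pt d.B.O → Matrix (Fin d.r) (Fin d.r) ℂ), IsOpen U ∧ b0 ∈ U ∧
    (∀ b ∈ U, (A b).det ≠ 0 ∧ ∀ i j,
      DifferentiableAt ℂ (fun z => A (d.B.D.sec b z) i j) (d.B.D.π b)) ∧
    ∀ b ∈ U, ∀ b' ∈ U, d.w b = d.w b' → (∀ a, d.Nn b (A b *ᵥ a) = d.Nn b' (A b' *ᵥ a)) ∧
      (A b).det ^ a1 * b' g = (A b').det ^ a1 * b g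
  iso : ∀ b (n : ℕ), n ≠ 0 → {A : Matrix (Fin d.r) (Fin d.r) ℂ |
    (∀ a, d.Nn b (A *ᵥ a) = d.Nn b a) ∧ A.det ^ n = 1}.Finite

/-- OUTPUT of (6c), (6d); the frame `e = τ A` has the values `f b p ᵥ* A` -/
structure FlatOut (g : d.B.O) (a1 : ℕ) where
  n : ℕ
  pos : 0 < n
  s : ℕ
  S : Fin s → d.Ten (Fin n)
  b0 : Pt d.B.O
  gen : ∀ ξ : Fin d.r → ℂ, (∀ j, d.tq (S j) b0 ξ = 0) → ξ = 0
  q : MvPolynomial ε ℂ
  q0 : MvPolynomial.eval (d.w b0) q ≠ 0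
  c0 : ℝ
  c0pos : 0 < c0
  tube : ∀ c, 0 < c → c ≤ c0 → ∀ Q : Set (ε → ℂ), IsCompact Q →
    (∀ a ∈ Q, MvPolynomial.eval a q ≠ 0) → ∃ C : NNReal, ∀ b, d.w b ∈ Q →
      ‖b g‖ ^ 2 * d.Dd b ^ (d.m * a1) ≤ C ∧ 1 ≤ C * (‖b g‖ ^ 2 * d.Dd b ^ (d.m * a1)) ∧
      ∃ A : Matrix (Fin d.r) (Fin d.r) ℂ, A.det ≠ 0 ∧ ‖A.det‖ ^ a1 ≤ C * ‖b g‖ ∧
        N.Lct (d.μ b) (fun p => d.f b p ᵥ* A) (2 / d.m) c C ∧
        ∀ j p, ‖d.tev (S j) b p‖ ≤ C * ∏ i, ‖d.f b (p i) ᵥ* A‖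

end Dat
end base

/-- what `kod_add_le` asks for -/
def EndOut (d : Dat δ K ν M) : Prop :=
  ∃ q : ℕ, 0 < q ∧ ∃ T : Set M, T.Nonempty ∧
    (∀ s ∈ T, s ≠ 0 ∧ ∀ η, Plu d.B.der d.k η → Plu d.T.X.der q (s * algebraMap K M η)) ∧
    ∀ φ ψ, Plu d.T.dx d.m φ → Plu d.T.dx d.m ψ →
      IsAlgebraic (IntermediateField.adjoin K {g | ∃ s ∈ T, ∃ t ∈ T, g = s / t}) (φ / ψ)

/-! ### definitions for the extension step -/
namespace Dat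
variable (d : Dat δ K ν M) {κ : Type} [Fintype κ] [DecidableEq κ]

/-- the fibre integral of `|U'|^a |U|^(-b) |V|^(-c)` -/
def I3 (U' U V : d.Ten κ) (a b c : ℝ) (y : Pt d.B.O) : ℝ≥0∞ :=
  ∫⁻ p, ‖d.tev U' y p‖ₑ ^ a * ‖d.tev U y p‖ₑ ^ (-b) * ‖d.tev V y p‖ₑ ^ (-c)
    ∂(Measure.pi fun _ : κ => d.μ y)

/-- the weight `|η|^(2/k) |g|^(-2θ)` on the base -/
def wt (g : d.B.O) (θ : ℝ) (y : Pt d.B.O) : ℝ≥0∞ := ‖y d.η‖ₑ ^ (2 / d.k : ℝ) * ‖y g‖ₑ ^ (-(2 * θ))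

variable {O : ValuationSubring M} {C : Cht δ K} {i0 : δ} {σ : Tr C.O d.B.O} {c0 : Pt C.O}

/-- the coefficient of the tensor `U` in the coordinates of `Ω` -/
def pb (Ω : OCh d.T.toRel O C i0 σ c0) (U : d.Ten κ) (q : (δ → ℂ) × (κ → ν → ℂ)) : ℂ :=
  (∑ I, Ω.β q.1 (U I) * ∏ j, Ω.Ψ (q.1, q.2 j) (d.τ (I j))) /
    ∏ j, (Ω.Ψ (q.1, q.2 j)).ev (Jac d.T.dx Ω.w) ^ d.m

/-- the order of `U` along `u = 0` is at least `a` -/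
def OrdT (Ω : OCh d.T.toRel O C i0 σ c0) (U : d.Ten κ) (a : ℤ) : Prop :=
  ∃ H : (δ → ℂ) × (κ → ν → ℂ) → ℂ,
    AnalyticOnNhd ℂ H (Metric.ball (C.D.π c0, fun _ => Ω.s0) Ω.r) ∧
    ∀ q ∈ Metric.ball (C.D.π c0, fun _ : κ => Ω.s0) Ω.r, q.1 i0 ≠ 0 → d.pb Ω U q = q.1 i0 ^ a * H q

end Dat

end
end Pool.Agent.Lib.MP_5c318e_ag
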