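import Pool.Agent.Lib.MP_5c318e_ag.S.PBas
import Pool.Agent.Lib.MP_5c318e_ag.G.CvRD
import Pool.Agent.Lib.MP_5c318e_ag.V.LV

/-!
The scalar interface of the middle part: boundary charts, the Hodge line as a function on a finite
chart, its profile at all prime divisors, descent and the key section.
-/

set_option autoImplicit false

namespace Pool.Agent.Lib.MP_5c318e_ag

open MeasureTheory Filter Topology Matrix

noncomputable section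

section top

variable {E : Type} [NormedAddCommGroup E] [NormedSpace ℂ E] {s n : Type} [Fintype s]
  [DecidableEq s] [Fintype n] [DecidableEq n]

/-- near `x0` the matrix `G` is the Gram matrix of a holomorphic frame `X` of a parallel part of
the top piece of a variation of rank `n` -/
def TopAt (n : Type) [Fintype n] [DecidableEq n] (K : ℝ) (G : E → Matrix s s ℂ) (x0 : E) : Prop :=
  ∃ (U : Set E) (h Y : E → Matrix n n ℂ) (Q : Matrix n n ℂ) (X : E → Matrix n s ℂ) (p : ℂ),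
    x0 ∈ U ∧ V.GM U h Y K ∧ ∀ x ∈ U, (∀ i j, AnalyticAt ℂ (fun y => X y i j) x) ∧
      Y x * X x = p • X x ∧ h x * X x = Q * X x ∧ G x = (X x)ᴴ * h x * X x ∧
      Function.Injective (X x).mulVec ∧
      ∀ ξ, ∃ c : Matrix s s ℂ, V.derM (-Complex.I) ξ X x = V.th h ξ x * X x + X x * c

end top

variable {δ K : Type} [Fintype δ] [DecidableEq δ] [Field K] [Algebra ℂ K]

/-- a finite chart -/
structure FCht (δ K : Type) [Fintype δ] [DecidableEq δ] [Field K] [Algebra ℂ K] extends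
    Cht δ K where
  fin : Fini (Algebra.ofId ℂ O) z

namespace FCht

variable (B : FCht δ K)

/-- the value of the discriminant -/
def dv (p : Pt B.O) : ℂ := MvPolynomial.eval (B.D.π p) B.fin.Δ

/-- the size of a point -/
def sz (p : Pt B.O) : ℝ := (1 + ‖B.D.π p‖) / ‖B.dv p‖ + (1 + ‖B.D.π p‖)

/-- moderate growth on the whole chart -/
def Tem (u : Pt B.O → ℝ) : Prop := ∃ (A : ℝ) (N : ℕ), ∀ p, u p ≤ A * B.sz p ^ N

/-- the density of the measure of the form `η` of weight `k0` -/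
def dn (η : K) (k0 : ℕ) (p : Pt B.O) : ℝ := ‖p.ev η‖ ^ (2 / k0 : ℝ)

end FCht

/-- prime divisors -/
abbrev PD (K : Type) [Field K] [Algebra ℂ K] : Type :=
  {P : ValuationSubring K // IsDivisorial ℂ K P}

/-- a chart at the prime divisor `P`, glued to `B` off the divisor -/
structure Bdy (B : Cht δ K) (P : ValuationSubring K) where
  C : Cht δ K
  i0 : δ
  τ : Tr C.O B.O
  cen : C.At P i0
  hτ : τ.h = C.z i0

namespace Bdy

variable {B : Cht δ K} {P : ValuationSubring K} (b : Bdy B P)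

/-- the uniformiser -/
def z : K := b.C.z b.i0

/-- properties of general points of the divisor -/
def gen : Filter (Pt b.C.O) where
  sets := {U | ∃ e : b.C.O, P.valuation (e : K) = 1 ∧
    ∀ c : Pt b.C.O, c (b.C.z b.i0) = 0 → c e ≠ 0 → c ∈ U}
  univ_sets := ⟨1, by simp, fun _ _ _ => trivial⟩
  sets_of_superset := fun ⟨e, h0, h⟩ hU => ⟨e, h0, fun c h1 h2 => hU (h c h1 h2)⟩
  inter_sets := fun ⟨e, h0, h⟩ ⟨e', h0', h'⟩ => ⟨e * e', by simp [h0, h0'], fun c h1 h2 => by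
    rw [map_mul] at h2
    exact ⟨h c h1 (left_ne_zero_of_mul h2), h' c h1 (right_ne_zero_of_mul h2)⟩⟩

/-- points of `B` near the point `c0` of the divisor -/
def near (c0 : Pt b.C.O) : Filter (Pt B.O) :=
  map b.τ.map (𝓝[{c | c (b.C.z b.i0) ≠ 0}] c0)

/-- the order of `g` is at least `n` -/
def Ge (g : K) (n : ℤ) : Prop := g / b.z ^ n ∈ P

/-- the Jacobian of the coordinates at `P` -/
def J : K := Jac B.der fun i => (b.C.z i : K)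

/-- the covering of `c` is trivial over a punctured neighbourhood of `c0` -/
def Triv {Γ : Type} [Group Γ] (c : G.Coc (Pt B.O) Γ) (c0 : Pt b.C.O) : Prop :=
  ∃ W ∈ 𝓝 c0, ∃ k : Pt b.C.O → Γ, ∀ x ∈ W, x (b.C.z b.i0) ≠ 0 →
    ∀ᶠ x' in 𝓝 x, k x' = k x * c.κ (b.τ.map x) (b.τ.map x')

end Bdy

/-- the set-up on the base: a nowhere vanishing form of finite mass -/
structure Base (B : FCht δ K) (η : K) (k0 : ℕ) : Prop where
  pos : 0 < k0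
  plu : Plu B.der k0 η
  mem : η ∈ B.O
  ne : ∀ p : Pt B.O, p.ev η ≠ 0
  mass : ∫⁻ p, ENNReal.ofReal (B.dn η k0 p) ∂B.D.μ < ⊤

/-- the Hodge line as a function: `Dn` is the squared norm of the generator, `ν` the rank -/
structure Lin (B : FCht δ K) (Dn : Pt B.O → ℝ) (ν : ℕ) : Prop where
  pos : ∀ p, 0 < Dn p
  psh : B.D.Psh fun p => -Real.log (Dn p)
  ana : ∀ p, AnalyticAt ℝ (fun y => Dn (B.D.sec p y)) (B.D.π p)
  tem : B.Tem Dn
  tem' : B.Tem fun p => (Dn p)⁻¹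
  low : ∀ O : Set (Pt B.O), IsOpen O → O.Nonempty → ∃ p0 ∈ O, ∃ (s : Pt B.O → Fin ν → ℂ) (A : ℝ),
    Function.Surjective (B.D.fd s p0) ∧ ∀ᶠ p in 𝓝 p0,
      DifferentiableAt ℂ (fun y => s (B.D.sec p y)) (B.D.π p) ∧
      ∀ ξ, ‖B.D.fd s p ξ‖ ^ 2 ≤ A * B.D.levi (fun q => -Real.log (Dn q)) p ξ

/-- a covering with enough square integrable sections -/
structure Peak (B : FCht δ K) (η : K) (k0 : ℕ) (Dn : Pt B.O → ℝ) {Γ : Type} [Group Γ]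
    (c : G.Coc (Pt B.O) Γ) where
  cnt : Countable Γ
  Dh : RD δ (G.Cv c)
  rm : G.RMap Dh B.D G.Cv.y
  t : ℕ
  pos : 0 < t
  ex : ∀ x0 : G.Cv c, ∃ u : G.Cv c → ℂ, Dh.Hol u ∧ u x0 ≠ 0 ∧
    ∫⁻ x, ENNReal.ofReal (‖u x‖ ^ 2 * Dn x.y ^ t * B.dn η k0 x.y) ∂Dh.μ < ⊤ ∧
    fderiv ℝ (fun y => ‖u (Dh.sec x0 y)‖ ^ 2 * Dn (Dh.sec x0 y).y ^ t) (Dh.π x0) = 0

/-- the behaviour of `Dn` at all prime divisors -/
structure Prof (B : FCht δ K) (η : K) (k0 : ℕ) (Dn : Pt B.O → ℝ) (ν : ℕ) {Γ : Type} [Group Γ]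
    (c : G.Coc (Pt B.O) Γ) where
  bd : ∀ P : PD K, Bdy B.toCht P.1
  e : PD K → ℕ
  al : PD K → ℤ
  Good : PD K → Prop
  he : ∀ P : PD K, P.1.valuation (η / (bd P).J ^ k0) = P.1.valuation (bd P).z ^ e P
  lo : ∀ P, ∀ᶠ c0 in (bd P).gen, ∃ κ : ℝ, 0 < κ ∧
    ∀ᶠ p in (bd P).near c0, κ * ‖p.ev (bd P).z‖ ^ (2 * al P) ≤ Dn p
  hi : ∀ P, ∀ᶠ c0 in (bd P).gen, ∀ ε : ℝ, 0 < ε →
    ∀ᶠ p in (bd P).near c0, Dn p ≤ ‖p.ev (bd P).z‖ ^ (2 * al P - ε : ℝ)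
  hi' : ∀ P, Good P → ∀ᶠ c0 in (bd P).gen, ∃ κ : ℝ,
    ∀ᶠ p in (bd P).near c0, Dn p ≤ κ * ‖p.ev (bd P).z‖ ^ (2 * al P)
  triv : ∀ P, Good P → ∀ᶠ c0 in (bd P).gen, (bd P).Triv c c0
  up : ∀ P, ¬ Good P → ν ≠ 0 ∧ ∀ (N : ℕ) (j : ℤ), ∃ A : ℕ, ∀ T : ℕ, 0 < T →
    ∀ U : Submodule ℂ K, (∀ g ∈ U, g ∈ B.O ∧ (bd P).Ge g (j - al P * T) ∧
      ∫⁻ p, ENNReal.ofReal (‖p.ev g‖ ^ 2 * Dn p ^ T / B.sz p ^ N) ∂B.D.μ < ⊤) →
    (∀ g ∈ U, (bd P).Ge g (j + 1 - al P * T) → g = 0) →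
    FiniteDimensional ℂ U ∧ Module.finrank ℂ U ≤ A * (T + 1) ^ (ν - 1)

section out

variable {B : FCht δ K} {η : K} {k0 : ℕ} {Dn : Pt B.O → ℝ} {ν : ℕ} {Γ : Type} [Group Γ]
  {c : G.Coc (Pt B.O) Γ}

/-- `o_P (g; a) ≥ n` -/
def Prof.Ord (F : Prof B η k0 Dn ν c) (P : PD K) (g : K) (a : ℕ) (n : ℤ) : Prop :=
  (F.bd P).Ge g (n - F.al P * a)

/-- regular sections of weight `a` with poles of order at most `A (1 + e)` -/
structure Prof.Sec (F : Prof B η k0 Dn ν c) (A : ℕ) (g : K) (a : ℕ) : Prop where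
  mem : g ∈ B.O
  good : ∀ P, F.Good P → F.e P = 0 → F.Ord P g a 0
  all : ∀ P, F.Ord P g a (-(A * (1 + F.e P) : ℕ))

/-- the output of the descent: coordinates `w_i = g_i / g_0` (the first block) on a smaller chart
`S`, and `|g_0|² Dn ^ a0` depends locally only on `w` -/
structure Desc (F : Prof B η k0 Dn ν c) where
  a0 : ℕ
  pos : 0 < a0
  A : ℕ
  nw : ℕ
  ng : ℕ
  S : FCht (Fin nw ⊕ Fin ng) K
  inc : B.O →ₐ[ℂ] S.O
  inc_eq : ∀ a, (inc a : K) = a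
  loc : ∃ h : B.O, h ≠ 0 ∧ S.O = locAway B.O h
  g0 : K
  sec0 : F.Sec A g0 a0
  sec : ∀ i, F.Sec A (g0 * S.z (Sum.inl i)) a0
  unit : ∀ p : Pt S.O, p.ev g0 ≠ 0
  const : ∀ p : Pt S.O, ∀ᶠ q in 𝓝 p, (∀ i, q (S.z (Sum.inl i)) = p (S.z (Sum.inl i))) →
    ‖q.ev g0‖ ^ 2 * Dn (q.res inc) ^ a0 = ‖p.ev g0‖ ^ 2 * Dn (p.res inc) ^ a0

/-- the key section -/
def Key {F : Prof B η k0 Dn ν c} (R : Desc F) : Prop :=
  ∃ A : ℕ, ∀ (VV : Finset (PD K)) (b0 : ℕ), ∃ (b : ℕ) (p : K), b0 ≤ b ∧ R.a0 ∣ b ∧ p ≠ 0 ∧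
    F.Sec A p b ∧ ∀ P ∈ VV, ¬ F.Good P → F.Ord P p b 1

end out

end

end Pool.Agent.Lib.MP_5c318e_ag
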