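import Pool.Agent.Lib.MP_5c318e_ag.N.Det

/-! Negative moments of a linear family are controlled by the quasi-norm alone. -/

set_option autoImplicit false

namespace Pool.Agent.Lib.MP_5c318e_ag.Z

open MeasureTheory Set Real Pool.Agent.Lib.MP_5c318e_ag.N
open scoped ENNReal

noncomputable section

variable {p c : ℝ}

namespace Nm

/-- the integral of `|u + z w|^p` over the unit circle -/
def cm (p : ℝ) (u w : ℂ) : ℝ≥0∞ := ∫⁻ θ in Ioc 0 (2 * π), ‖u + circleMap 0 1 θ * w‖ₑ ^ p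

theorem enorm_rpow (hp : 0 ≤ p) (u : ℂ) : ‖u‖ₑ ^ p = ENNReal.ofReal (‖u‖ ^ p) := by
  rw [← ofReal_norm, ENNReal.ofReal_rpow_of_nonneg (norm_nonneg _) hp]

theorem cm_const (x : ℝ≥0∞) : ∫⁻ _ in Ioc 0 (2 * π), x = ENNReal.ofReal (2 * π) * x := by
  simp [mul_comm]

theorem cm_one (hp : 0 < p) (a : ℂ) :
    ENNReal.ofReal (2 * π) * ENNReal.ofReal (max 1 ‖a‖ ^ p) ≤ cm p a 1 := by
  have h0 : (0 : ℝ) ≤ 2 * π := by positivity
  set m := max 1 ‖a‖ with hm
  have hm0 : 0 < m := lt_max_of_lt_left one_pos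
  have hl : log m = log⁺ ‖a‖ := by
    rw [posLog_eq_log_max_one (norm_nonneg a)]
  have i1 : IntervalIntegrable (fun θ => log ‖circleMap 0 1 θ - -a‖) volume 0 (2 * π) :=
    circleIntegrable_log_norm_sub_const (a := -a) (c := 0) 1
  have e1 : ∫ θ in (0 : ℝ)..2 * π, log ‖circleMap 0 1 θ - -a‖ = 2 * π * log m := by
    have := circleAverage_log_norm_sub_const_eq_posLog (a := -a)
    rw [circleAverage_def, smul_eq_mul, norm_neg, ← hl, inv_mul_eq_iff_eq_mul₀ (by positivity)]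
      at this
    exact this
  have c2 : Continuous fun θ => ‖circleMap 0 1 θ - -a‖ ^ p :=
    (((continuous_circleMap 0 1).sub continuous_const).norm).rpow_const fun _ => Or.inr hp.le
  have i2 := c2.intervalIntegrable (μ := volume) 0 (2 * π)
  have i3 : IntervalIntegrable (fun θ => m ^ p * (1 + p * (log ‖circleMap 0 1 θ - -a‖ - log m)))
      volume 0 (2 * π) :=
    (intervalIntegrable_const.add ((i1.sub intervalIntegrable_const).const_mul p)).const_mul _
  have hz : ∀ᵐ θ : ℝ, circleMap 0 1 θ ∉ ({-a} : Set ℂ) :=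
    ((countable_singleton (-a)).preimage_circleMap 0 one_ne_zero).ae_notMem volume
  have le := intervalIntegral.integral_mono_ae h0 i3 i2 (by
    filter_upwards [hz] with θ hθ
    have h1 : 0 < ‖circleMap 0 1 θ - -a‖ := norm_pos_iff.2 (sub_ne_zero.2 hθ)
    have h2 := add_one_le_exp (p * (log ‖circleMap 0 1 θ - -a‖ - log m))
    rw [rpow_def_of_pos h1, rpow_def_of_pos hm0]
    calc exp (log m * p) * (1 + p * (log ‖circleMap 0 1 θ - -a‖ - log m))
        ≤ exp (log m * p) * exp (p * (log ‖circleMap 0 1 θ - -a‖ - log m)) := by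
          gcongr
          linarith
      _ = _ := by
          rw [← exp_add]
          ring_nf)
  rw [intervalIntegral.integral_const_mul, intervalIntegral.integral_add intervalIntegrable_const
    ((i1.sub intervalIntegrable_const).const_mul p), intervalIntegral.integral_const_mul,
    intervalIntegral.integral_sub i1 intervalIntegrable_const, e1,
    intervalIntegral.integral_of_le h0 (f := fun θ => ‖circleMap 0 1 θ - -a‖ ^ p)] at le
  simp only [intervalIntegral.integral_const, sub_zero, smul_eq_mul, sub_self, mul_zero, mul_one,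
    add_zero] at le
  rw [← ENNReal.ofReal_mul h0, mul_comm]
  refine (ENNReal.ofReal_le_ofReal le).trans (le_of_eq ?_)
  rw [ofReal_integral_eq_lintegral_ofReal i2.1 (ae_of_all _ fun _ => by positivity)]
  refine lintegral_congr fun θ => ?_
  rw [← ENNReal.ofReal_rpow_of_nonneg (norm_nonneg _) hp.le, ofReal_norm, mul_one, sub_neg_eq_add,
    add_comm]

theorem le_cm (hp : 0 < p) (u w : ℂ) :
    ENNReal.ofReal (2 * π) * ENNReal.ofReal (max ‖u‖ ‖w‖ ^ p) ≤ cm p u w := by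
  by_cases hw : w = 0
  · simp only [hw, cm, mul_zero, add_zero, cm_const, norm_zero, max_eq_left (norm_nonneg u)]
    rw [← ENNReal.ofReal_rpow_of_nonneg (norm_nonneg _) hp.le, ofReal_norm]
  have h0 : 0 < ‖w‖ := norm_pos_iff.2 hw
  have e : cm p u w = ‖w‖ₑ ^ p * cm p (u / w) 1 := by
    rw [cm, cm, ← lintegral_const_mul' _ _ (ENNReal.rpow_ne_top_of_nonneg hp.le enorm_ne_top)]
    refine lintegral_congr fun θ => ?_
    rw [← ENNReal.mul_rpow_of_nonneg _ _ hp.le, ← enorm_mul]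
    congr 2
    field_simp
  rw [e]
  refine le_trans (le_of_eq ?_) (mul_le_mul_right (cm_one hp (u / w)) _)
  rw [mul_left_comm, enorm_rpow hp.le]
  congr 1
  rw [← ENNReal.ofReal_mul (by positivity), ← mul_rpow h0.le (by positivity),
    mul_max_of_nonneg _ _ h0.le, norm_div, mul_one, mul_div_cancel₀ _ h0.ne', max_comm]

theorem cm_le (hp : 0 < p) (u w : ℂ) :
    cm p u w ≤ ENNReal.ofReal (2 * π) * ENNReal.ofReal ((‖u‖ + ‖w‖) ^ p) := by
  rw [← cm_const]
  refine lintegral_mono fun θ => ?_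
  rw [← ofReal_norm, ENNReal.ofReal_rpow_of_nonneg (norm_nonneg _) hp.le]
  refine ENNReal.ofReal_le_ofReal (rpow_le_rpow (norm_nonneg _) ?_ hp.le)
  simpa using norm_add_le u (circleMap 0 1 θ * w)

/-- the excess of the circle integral over the value at the centre -/
def ex (p : ℝ) (u w : ℂ) : ℝ≥0∞ := cm p u w - ENNReal.ofReal (2 * π) * ‖u‖ₑ ^ p

theorem ex_add (hp : 0 < p) (u w : ℂ) :
    ex p u w + ENNReal.ofReal (2 * π) * ‖u‖ₑ ^ p = cm p u w := by
  refine tsub_add_cancel_of_le (le_trans ?_ (le_cm hp u w))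
  rw [enorm_rpow hp.le]
  gcongr
  exact le_max_left _ _

theorem le_ex (hp : 0 < p) (u w : ℂ) :
    ENNReal.ofReal (2 * π) * ENNReal.ofReal (‖w‖ ^ p - ‖u‖ ^ p) ≤ ex p u w := by
  rw [ENNReal.ofReal_sub _ (by positivity), ENNReal.mul_sub fun _ _ => ENNReal.ofReal_ne_top, ex,
    enorm_rpow hp.le]
  refine tsub_le_tsub_right (le_trans ?_ (le_cm hp u w)) _
  gcongr
  exact le_max_right _ _

theorem ex_le (hp : 0 < p) (u w : ℂ) :
    ex p u w ≤ ENNReal.ofReal (2 * π) * ENNReal.ofReal ((‖u‖ + ‖w‖) ^ p - ‖u‖ ^ p) := by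
  rw [ENNReal.ofReal_sub _ (by positivity), ENNReal.mul_sub fun _ _ => ENNReal.ofReal_ne_top, ex,
    enorm_rpow hp.le]
  exact tsub_le_tsub_right (cm_le hp u w) _

theorem measurable_cm {α : Type*} [MeasurableSpace α] {u w : α → ℂ} (hu : Measurable u)
    (hw : Measurable w) :
    Measurable fun q : α × ℝ => ‖u q.1 + circleMap 0 1 q.2 * w q.1‖ₑ ^ p :=
  ((hu.comp measurable_fst).add ((((continuous_circleMap 0 1).measurable).comp
    measurable_snd).mul (hw.comp measurable_fst))).enorm.pow_const _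

theorem measurable_ex {α : Type*} [MeasurableSpace α] {u w : α → ℂ} (hu : Measurable u)
    (hw : Measurable w) : Measurable fun x => ex p (u x) (w x) :=
  (measurable_cm hu hw).lintegral_prod_right'.sub ((hu.enorm.pow_const _).const_mul _)

/-- the weighted integral of the excess over all radii -/
def ph (p c : ℝ) (u v : ℂ) : ℝ≥0∞ :=
  ∫⁻ t : ℝ, ENNReal.ofReal (exp (-(p + c) * t)) * ex p u (exp t * v)

/-- the lower constant -/
def k0 (p c : ℝ) : ℝ≥0∞ := ∫⁻ t : ℝ, ENNReal.ofReal (exp (-(p + c) * t) * (exp (p * t) - 1))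

/-- the upper constant -/
def k1 (p c : ℝ) : ℝ≥0∞ :=
  ∫⁻ t : ℝ, ENNReal.ofReal (exp (-(p + c) * t) * ((1 + exp t) ^ p - 1))

theorem k0_ne (hp : 0 < p) : k0 p c ≠ 0 := by
  refine ((lintegral_pos_iff_support (by fun_prop)).2 ?_).ne'
  refine lt_of_lt_of_le (by simp) (measure_mono (s := Ioi (0 : ℝ)) fun t ht => ?_)
  refine (ENNReal.ofReal_pos.2 (mul_pos (exp_pos _) (sub_pos.2 ?_))).ne'
  exact one_lt_exp_iff.2 (mul_pos hp ht)

theorem k1_ne (hp : 0 < p) (hc : 0 < c) (h1 : p + c < 1) : k1 p c ≠ ⊤ := by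
  rw [k1, ← lintegral_add_compl _ (measurableSet_Iic (a := (0 : ℝ))), compl_Iic]
  refine ENNReal.add_ne_top.2 ⟨?_, ?_⟩
  · refine ne_top_of_le_ne_top (integrableOn_exp_mul_Iic (sub_pos.2 h1) 0).lintegral_lt_top.ne
      (lintegral_mono fun t => ENNReal.ofReal_le_ofReal ?_)
    have h2 := rpow_one_add_le_one_add_mul_self (s := exp t) (by linarith [exp_pos t]) hp.le
      (by linarith)
    have h3 : p * exp t ≤ exp t := mul_le_of_le_one_left (exp_pos t).le (by linarith)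
    calc exp (-(p + c) * t) * ((1 + exp t) ^ p - 1) ≤ exp (-(p + c) * t) * exp t := by
          gcongr
          linarith
      _ = _ := by
          rw [← exp_add]
          ring_nf
  · refine ne_top_of_le_ne_top (integrableOn_exp_mul_Ioi (neg_lt_zero.2 hc) 0).lintegral_lt_top.ne
      (lintegral_mono fun t => ENNReal.ofReal_le_ofReal ?_)
    have h2 := Real.rpow_add_le_add_rpow zero_le_one (exp_pos t).le hp.le (by linarith)
    rw [one_rpow, ← exp_mul] at h2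
    calc exp (-(p + c) * t) * ((1 + exp t) ^ p - 1) ≤ exp (-(p + c) * t) * exp (t * p) := by
          gcongr
          linarith
      _ = _ := by
          rw [← exp_add]
          ring_nf

theorem shift {U V : ℝ} (hU : 0 < U) (hV : 0 < V) (t : ℝ) :
    exp t * V = U * exp (t + log (V / U)) ∧ exp (-(p + c) * t) * U ^ p =
      U ^ (-c) * V ^ (p + c) * exp (-(p + c) * (t + log (V / U))) := by
  constructor
  · rw [exp_add, exp_log (div_pos hV hU)]
    field_simp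
  · rw [rpow_def_of_pos hU, rpow_def_of_pos hU, rpow_def_of_pos hV, log_div hV.ne' hU.ne',
      ← exp_add, ← exp_add, ← exp_add]
    ring_nf

theorem norm_exp_mul (t : ℝ) (v : ℂ) : ‖(exp t : ℂ) * v‖ = exp t * ‖v‖ := by
  rw [norm_mul, Complex.norm_real, Real.norm_of_nonneg (exp_pos t).le]

theorem enorm_mom {u v : ℂ} (hu : u ≠ 0) (hv : v ≠ 0) :
    ‖v‖ₑ ^ (p + c) * ‖u‖ₑ ^ (-c) = ENNReal.ofReal (‖u‖ ^ (-c) * ‖v‖ ^ (p + c)) := by
  rw [ENNReal.ofReal_mul (by positivity), ← ENNReal.ofReal_rpow_of_pos (norm_pos_iff.2 hu),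
    ← ENNReal.ofReal_rpow_of_pos (norm_pos_iff.2 hv), ofReal_norm, ofReal_norm, mul_comm]

theorem ph_le (hp : 0 < p) (hc : 0 < c) (u v : ℂ) :
    ph p c u v ≤ ENNReal.ofReal (2 * π) * (k1 p c + 1) * (‖v‖ₑ ^ (p + c) * ‖u‖ₑ ^ (-c)) := by
  by_cases hv : v = 0
  · refine le_trans (le_of_eq ?_) zero_le
    simp [ph, hv, ex, cm, mul_comm]
  have hV := norm_pos_iff.2 hv
  by_cases hu : u = 0
  · have : ‖v‖ₑ ^ (p + c) ≠ 0 := by simp [hv]
    simp [hu, ENNReal.zero_rpow_of_neg (neg_lt_zero.2 hc), this, pi_pos, ENNReal.mul_top]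
  have hU := norm_pos_iff.2 hu
  rw [enorm_mom hu hv]
  refine le_trans ?_ (mul_le_mul_left (mul_le_mul_right le_self_add _) _)
  rw [k1, ← lintegral_add_right_eq_self _ (log (‖v‖ / ‖u‖)),
    ← lintegral_const_mul' _ _ ENNReal.ofReal_ne_top,
    ← lintegral_mul_const' _ _ ENNReal.ofReal_ne_top]
  refine lintegral_mono fun t => (mul_le_mul_right (ex_le hp _ _) _).trans (le_of_eq ?_)
  obtain ⟨e1, e2⟩ := shift (p := p) (c := c) hU hV t
  rw [mul_left_comm, mul_assoc]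
  congr 1
  rw [← ENNReal.ofReal_mul (exp_pos _).le,
    ← ENNReal.ofReal_mul' (by positivity), norm_exp_mul, e1, ← mul_one_add,
    mul_rpow hU.le (by positivity), ← mul_sub_one, ← mul_assoc, e2]
  ring_nf

theorem le_ph (hp : 0 < p) (hc : 0 < c) (u v : ℂ) :
    ENNReal.ofReal (2 * π) * k0 p c * (‖v‖ₑ ^ (p + c) * ‖u‖ₑ ^ (-c)) ≤ ph p c u v := by
  by_cases hv : v = 0
  · simp [hv, ENNReal.zero_rpow_of_pos (add_pos hp hc)]
  have hV := norm_pos_iff.2 hv
  by_cases hu : u = 0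
  · refine le_top.trans (le_trans (le_of_eq ?_) ((setLIntegral_mono' (s := Iic (0 : ℝ))
      (f := fun _ => ENNReal.ofReal (2 * π) * ENNReal.ofReal (‖v‖ ^ p)) measurableSet_Iic
      fun t ht => ?_).trans (setLIntegral_le_lintegral _ _)))
    · have : 0 < ‖v‖ ^ p := by positivity
      simp [pi_pos, this, ENNReal.mul_top]
    · refine le_trans ?_ (mul_le_mul_right (le_ex hp _ _) _)
      rw [mul_left_comm, ← ENNReal.ofReal_mul (exp_pos _).le, hu, norm_zero, zero_rpow hp.ne',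
        sub_zero, norm_exp_mul, mul_rpow (exp_pos t).le hV.le, ← exp_mul, ← mul_assoc, ← exp_add]
      gcongr
      refine le_mul_of_one_le_left (by positivity) (one_le_exp ?_)
      nlinarith [mem_Iic.1 ht]
  have hU := norm_pos_iff.2 hu
  rw [enorm_mom hu hv, k0, ← lintegral_add_right_eq_self _ (log (‖v‖ / ‖u‖)),
    ← lintegral_const_mul' _ _ ENNReal.ofReal_ne_top,
    ← lintegral_mul_const' _ _ ENNReal.ofReal_ne_top]
  refine lintegral_mono fun t => le_trans (le_of_eq ?_) (mul_le_mul_right (le_ex hp _ _) _)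
  obtain ⟨e1, e2⟩ := shift (p := p) (c := c) hU hV t
  rw [mul_left_comm (ENNReal.ofReal (exp _)), mul_assoc]
  congr 1
  rw [← ENNReal.ofReal_mul (exp_pos _).le,
    ← ENNReal.ofReal_mul' (by positivity), norm_exp_mul, e1,
    mul_rpow hU.le (by positivity), ← mul_sub_one, ← mul_assoc (exp _), e2, ← exp_mul]
  ring_nf

variable {Ω Ω' : Type*} [MeasurableSpace Ω] [MeasurableSpace Ω'] {ν : Measure Ω} {ν' : Measure Ω'}
  [SFinite ν] [SFinite ν'] {κ : Type*} [Fintype κ] {τ : Ω → κ → ℂ} {τ' : Ω' → κ → ℂ}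

theorem measurable_dot {α : Type*} [MeasurableSpace α] {σ : α → κ → ℂ} (hσ : Measurable σ)
    (a : κ → ℂ) : Measurable fun x => a ⬝ᵥ σ x :=
  Finset.measurable_sum _ fun i _ => ((measurable_pi_apply i).comp hσ).const_mul _

theorem lintegral_ex (hp : 0 < p) (hτ : Measurable τ) (a b : κ → ℂ) (s : ℂ) :
    ∫⁻ x, ex p (a ⬝ᵥ τ x) (s * b ⬝ᵥ τ x) ∂ν + ENNReal.ofReal (2 * π) * nN ν τ p a =
      ∫⁻ θ in Ioc 0 (2 * π), nN ν τ p (a + (circleMap 0 1 θ * s) • b) := by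
  have ma := measurable_dot hτ a
  have mb := (measurable_dot hτ b).const_mul s
  rw [nN, ← lintegral_const_mul _ (ma.enorm.pow_const _), ← lintegral_add_left (measurable_ex ma mb)]
  simp_rw [ex_add hp, cm]
  rw [lintegral_lintegral_swap (measurable_cm ma mb).aemeasurable]
  refine lintegral_congr fun θ => lintegral_congr fun x => ?_
  rw [add_dotProduct, smul_dotProduct, smul_eq_mul, mul_assoc]

theorem lintegral_ph (hτ : Measurable τ) (a b : κ → ℂ) :
    ∫⁻ x, ph p c (a ⬝ᵥ τ x) (b ⬝ᵥ τ x) ∂ν = ∫⁻ t : ℝ, ENNReal.ofReal (exp (-(p + c) * t)) *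
      ∫⁻ x, ex p (a ⬝ᵥ τ x) (exp t * b ⬝ᵥ τ x) ∂ν := by
  have ma := measurable_dot hτ a
  have mb := measurable_dot hτ b
  simp_rw [ph]
  rw [lintegral_lintegral_swap]
  · exact lintegral_congr fun t => lintegral_const_mul' _ _ ENNReal.ofReal_ne_top
  · refine Measurable.aemeasurable (Measurable.mul (by fun_prop) ?_)
    exact measurable_ex (ma.comp measurable_fst) (Measurable.mul (by fun_prop)
      (mb.comp measurable_fst))

end Nm

open Nm

variable {Ω Ω' : Type*} [MeasurableSpace Ω] [MeasurableSpace Ω'] {ν : Measure Ω} {ν' : Measure Ω'}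
  [SFinite ν] [SFinite ν'] {κ : Type*} [Fintype κ] {τ : Ω → κ → ℂ} {τ' : Ω' → κ → ℂ}

/-- the constant of the transfer -/
def kk (p c : ℝ) : ℝ≥0∞ := (k1 p c + 1) / k0 p c

theorem kk_ne_top (hp : 0 < p) (hc : 0 < c) (h1 : p + c < 1) : kk p c ≠ ⊤ :=
  ENNReal.div_ne_top (ENNReal.add_ne_top.2 ⟨k1_ne hp hc h1, ENNReal.one_ne_top⟩) (k0_ne hp)

/-- mixed moments -/
theorem mom_le (hp : 0 < p) (hc : 0 < c) (h1 : p + c < 1) (hτ : Measurable τ)
    (hτ' : Measurable τ') (hN : ∀ a, nN ν' τ' p a = nN ν τ p a) {a : κ → ℂ} (ha : nN ν τ p a ≠ ⊤)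
    (b : κ → ℂ) : ∫⁻ x, ‖b ⬝ᵥ τ' x‖ₑ ^ (p + c) * ‖a ⬝ᵥ τ' x‖ₑ ^ (-c) ∂ν' ≤
      kk p c * ∫⁻ x, ‖b ⬝ᵥ τ x‖ₑ ^ (p + c) * ‖a ⬝ᵥ τ x‖ₑ ^ (-c) ∂ν := by
  have L0 : ENNReal.ofReal (2 * π) ≠ 0 := by simp [pi_pos]
  have e : ∀ s : ℂ, ∫⁻ x, ex p (a ⬝ᵥ τ' x) (s * b ⬝ᵥ τ' x) ∂ν' =
      ∫⁻ x, ex p (a ⬝ᵥ τ x) (s * b ⬝ᵥ τ x) ∂ν := fun s => by
    have e1 := lintegral_ex (ν := ν') hp hτ' a b s
    simp_rw [hN] at e1
    rw [← lintegral_ex (ν := ν) hp hτ a b s] at e1
    exact (ENNReal.add_left_inj (ENNReal.mul_ne_top ENNReal.ofReal_ne_top ha)).1 e1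
  have k01 : k0 p c ≤ k1 p c := lintegral_mono fun t => ENNReal.ofReal_le_ofReal (by
    rw [mul_comm p t, exp_mul t p]
    gcongr
    linarith)
  have kt : k0 p c ≠ ⊤ := ne_top_of_le_ne_top (k1_ne hp hc h1) k01
  have h2 := lintegral_mono (μ := ν') fun x => le_ph hp hc (a ⬝ᵥ τ' x) (b ⬝ᵥ τ' x)
  have h3 := lintegral_mono (μ := ν) fun x => ph_le hp hc (a ⬝ᵥ τ x) (b ⬝ᵥ τ x)
  rw [lintegral_const_mul' _ _ (ENNReal.mul_ne_top ENNReal.ofReal_ne_top kt),
    lintegral_ph hτ'] at h2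
  rw [lintegral_const_mul' _ _ (ENNReal.mul_ne_top ENNReal.ofReal_ne_top
    (ENNReal.add_ne_top.2 ⟨k1_ne hp hc h1, ENNReal.one_ne_top⟩)), lintegral_ph hτ] at h3
  simp_rw [e] at h2
  have h4 := h2.trans h3
  rw [mul_assoc, mul_assoc, ENNReal.mul_le_mul_iff_right L0 ENNReal.ofReal_ne_top] at h4
  rw [kk, ENNReal.div_eq_inv_mul, mul_assoc]
  exact (ENNReal.mul_le_iff_le_inv (k0_ne hp) kt).1 h4

/-- the integrability of negative powers passes along an isometry of the quasi-norms -/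
theorem lct_transfer (hp : 0 < p) (hc : 0 < c) (h1 : p + c < 1) (hτ : Measurable τ)
    (hτ' : Measurable τ') (hN : ∀ a, nN ν' τ' p a = nN ν τ p a) (ha : ∀ a, nN ν τ p a ≠ ⊤)
    {C : ℝ≥0∞} (h : Lct ν τ p c C) : Lct ν' τ' p c (Fintype.card κ * kk p c * C) := by
  classical
  intro a h0
  have hs : 0 < p + c := add_pos hp hc
  have hne : Nonempty κ := by
    by_contra hn
    exact h0 (funext fun i => (hn ⟨i⟩).elim)
  calc ∫⁻ x, ‖τ' x‖ₑ ^ (p + c) * ‖a ⬝ᵥ τ' x‖ₑ ^ (-c) ∂ν'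
      ≤ ∫⁻ x, ∑ i, ‖Pi.single i 1 ⬝ᵥ τ' x‖ₑ ^ (p + c) * ‖a ⬝ᵥ τ' x‖ₑ ^ (-c) ∂ν' := by
        refine lintegral_mono fun x => ?_
        obtain ⟨i, hi⟩ := Finite.exists_max fun i => ‖τ' x i‖
        have h2 : ‖τ' x‖ₑ ≤ ‖τ' x i‖ₑ := by
          rw [← ofReal_norm, ← ofReal_norm]
          exact ENNReal.ofReal_le_ofReal ((pi_norm_le_iff_of_nonneg (norm_nonneg _)).2 hi)
        refine le_trans ?_ (Finset.single_le_sum (f := fun i => ‖Pi.single i 1 ⬝ᵥ τ' x‖ₑ ^ (p + c) *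
          ‖a ⬝ᵥ τ' x‖ₑ ^ (-c)) (fun _ _ => zero_le) (Finset.mem_univ i))
        simp only [single_dotProduct, one_mul]
        gcongr
    _ = ∑ i, ∫⁻ x, ‖Pi.single i 1 ⬝ᵥ τ' x‖ₑ ^ (p + c) * ‖a ⬝ᵥ τ' x‖ₑ ^ (-c) ∂ν' :=
        lintegral_finsetSum _ fun i _ => ((measurable_dot hτ' _).enorm.pow_const _).mul
          ((measurable_dot hτ' _).enorm.pow_const _)
    _ ≤ ∑ _i : κ, kk p c * (C * ‖a‖ₑ ^ (-c)) := by
        refine Finset.sum_le_sum fun i _ => (mom_le hp hc h1 hτ hτ' hN (ha a) _).trans ?_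
        refine mul_le_mul_right ((lintegral_mono fun x => ?_).trans (h a h0)) _
        simp only [single_dotProduct, one_mul]
        gcongr
        exact enorm_le_pi_enorm _ i
    _ = _ := by simp [mul_assoc]

end

end Pool.Agent.Lib.MP_5c318e_ag.Z
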