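import Pool.Agent.Lib.MP_5c318e_ag.Z.LDefs
import Pool.Agent.Lib.MP_5c318e_ag.Z.DDefs
import Pool.Agent.Lib.MP_5c318e_ag.G.Pkg
import Pool.Agent.Lib.MP_5c318e_ag.N.T3

/-! The Hodge line of a set-up and the outputs of the towers. -/

set_option autoImplicit false

namespace Pool.Agent.Lib.MP_5c318e_ag

open MeasureTheory Set Filter Topology Matrix

noncomputable section

variable {δ ν K M : Type} [Fintype δ] [DecidableEq δ] [Fintype ν] [DecidableEq ν]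
  [Field K] [Algebra ℂ K] [Field M] [Algebra ℂ M] [Algebra K M]

namespace Dat

variable (d : Dat δ K ν M)

/-- the base as a finite chart -/
abbrev fc : FCht δ K := ⟨d.B, d.T.finB⟩

/-- the power `D ^ M0` -/
abbrev Dn (M0 : ℕ) : Pt d.B.O → ℝ := fun b => d.Dd b ^ M0

/-- the variation whose Hodge line has the norm `D`; `rk` is the generic rank of its period map -/
structure Pkg where
  n : ℕ
  w : ℕ
  V : G.Pk d.B.D (Fin n) w
  om : V.Bt → Fin n → ℂ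
  hl : G.HL V om
  nrm : ∀ y, V.N om y = d.Dd y
  rk : ℕ
  rk_le : ∀ x, Module.finrank ℂ ((Submodule.span ℂ {om x} ⊔
    LinearMap.range (V.rd.fd om x).toLinearMap : Submodule ℂ (Fin n → ℂ))) ≤ rk + 1
  rk_eq : ∃ x, Module.finrank ℂ ((Submodule.span ℂ {om x} ⊔
    LinearMap.range (V.rd.fd om x).toLinearMap : Submodule ℂ (Fin n → ℂ))) = rk + 1

/-- the group of the covering used for the descent -/
abbrev Pkg.Γ {d : Dat δ K ν M} (P : d.Pkg) : Type :=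
  P.V.Γ ⧸ MP_5c318e_ag.K.Nn P.hl.top P.hl.ne

/-- the covering used for the descent -/
abbrev Pkg.c {d : Dat δ K ν M} (P : d.Pkg) : G.Coc (Pt d.B.O) P.Γ :=
  MP_5c318e_ag.K.ch P.hl.top P.hl.ne

/-- a Hodge metric on `E ⊗ det ^ j`, off `e = 0` -/
def T2On (e : d.B.O) : Prop :=
  ∃ (s c : ℝ) (H : Pt d.B.O → Matrix (Fin d.r) (Fin d.r) ℂ), 0 < c ∧ ∀ b : Pt d.B.O, b e ≠ 0 →
    (∃ (n : ℕ) (κ : ℝ), TopAt (Fin n) κ (fun z => H (d.B.D.sec b z)) (d.B.D.π b)) ∧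
    (∀ a, c * (d.Nn b a ^ d.m * d.Dd b ^ s) ≤ (star a ⬝ᵥ H b *ᵥ a).re) ∧
    c * d.Dd b ^ (d.m + d.r * s) ≤ (H b).det.re

/-- the Hodge metric of the cone tower, off `e = 0` -/
def T3On (e : d.B.O) : Prop :=
  ∃ (Δ : MvPolynomial (Fin d.r) d.B.O)
    (H : Pt d.B.O → (Fin d.r → ℂ) → Matrix (Fin d.r) (Fin d.r) ℂ), ∀ b : Pt d.B.O, b e ≠ 0 →
    MvPolynomial.map (b.hom : d.B.O →+* ℂ) Δ ≠ 0 ∧
    ∀ a, MvPolynomial.eval₂ (b.hom : d.B.O →+* ℂ) a Δ ≠ 0 →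
      (∃ (n : ℕ) (κ : ℝ), TopAt (Fin n) κ
        (fun p : (δ → ℂ) × (Fin d.r → ℂ) => H (d.B.D.sec b p.1) p.2) (d.B.D.π b, a)) ∧
      ∀ u, ENNReal.ofReal (star u ⬝ᵥ H b a *ᵥ u).re = N.h3 (d.μ b) (d.f b) (2 / d.m) a u

end Dat

end

end Pool.Agent.Lib.MP_5c318e_ag
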