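import Mathlib

/-! Power sums determine the nonzero values of a summable family. -/

set_option autoImplicit false

namespace Pool.Agent.Lib.MP_5c318e_ag.Z

open Filter Topology Polynomial

variable {I J : Type*}

theorem finite_ge {a : I → ℂ} {j : ℕ} (ha : Summable fun i => ‖a i‖ ^ j) {r : ℝ} (hr : 0 < r) :
    {i | r ≤ ‖a i‖}.Finite := by
  have h := ha.tendsto_cofinite_zero.eventually (gt_mem_nhds (pow_pos hr j))
  refine (Filter.eventually_cofinite.1 h).subset fun i hi => ?_
  exact not_lt.2 (pow_le_pow_left₀ hr.le hi j)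

theorem summable_pow_add {a : I → ℂ} {j : ℕ} (ha : Summable fun i => ‖a i‖ ^ j) (k : ℕ) :
    Summable fun i => ‖a i‖ ^ (j + k) := by
  refine Summable.of_norm_bounded_eventually ha ?_
  filter_upwards [(finite_ge ha one_pos).compl_mem_cofinite] with i hi
  rw [Real.norm_of_nonneg (by positivity), pow_add]
  exact mul_le_of_le_one_right (by positivity)
    (pow_le_one₀ (norm_nonneg _) (not_le.1 (show ¬ 1 ≤ ‖a i‖ from hi)).le)

theorem summable_pow {a : I → ℂ} {j : ℕ} (ha : Summable fun i => ‖a i‖ ^ j) {k : ℕ} (hk : j ≤ k) :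
    Summable fun i => a i ^ k := by
  obtain ⟨l, rfl⟩ := Nat.exists_eq_add_of_le hk
  exact Summable.of_norm (by simpa using summable_pow_add ha l)

theorem tsum_pow_eval {a : I → ℂ} {j : ℕ} (ha : Summable fun i => ‖a i‖ ^ j) {k : ℕ} (hk : j ≤ k)
    (q : ℂ[X]) : ∑' i, a i ^ k * q.eval (a i) =
      ∑ l ∈ Finset.range (q.natDegree + 1), q.coeff l * ∑' i, a i ^ (k + l) := by
  simp_rw [eval_eq_sum_range, Finset.mul_sum, ← tsum_mul_left]
  rw [← Summable.tsum_finsetSum fun l _ =>
    (summable_pow ha (hk.trans (Nat.le_add_right k l))).mul_left _]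
  refine tsum_congr fun i => Finset.sum_congr rfl fun l _ => ?_
  ring

theorem tendsto_ps {a : I → ℂ} {j : ℕ} (ha : Summable fun i => ‖a i‖ ^ j) {z : ℂ} (hz : z ≠ 0)
    {q : ℂ[X]} (hq : ∀ i, ‖z‖ ≤ ‖a i‖ → a i ≠ z → q.eval (a i) = 0) :
    Tendsto (fun n : ℕ => (∑' i, a i ^ (j + n) * q.eval (a i)) / z ^ (j + n)) atTop
      (𝓝 (∑' i, if a i = z then q.eval z else 0)) := by
  have hz' : 0 < ‖z‖ := norm_pos_iff.2 hz
  obtain ⟨C, hC⟩ := (isCompact_closedBall (0 : ℂ) ‖z‖).exists_bound_of_continuousOn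
    q.continuous.continuousOn
  simp_rw [← tsum_div_const]
  refine tendsto_tsum_of_dominated_convergence (bound := fun i => C / ‖z‖ ^ j * ‖a i‖ ^ j)
    (ha.mul_left _) (fun i => ?_) (Eventually.of_forall fun n i => ?_)
  · split_ifs with h
    · simp [h, hz]
    · by_cases h1 : ‖z‖ ≤ ‖a i‖
      · simp [hq i h1 h]
      · have h2 : ‖a i / z‖ < 1 := by
          rw [norm_div, div_lt_one hz']
          exact not_le.1 h1
        have := ((tendsto_pow_atTop_nhds_zero_of_norm_lt_one h2).const_mul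
          ((a i / z) ^ j)).mul_const (q.eval (a i))
        rw [mul_zero, zero_mul] at this
        refine this.congr fun n => ?_
        rw [← pow_add, div_pow]
        ring
  · have hC0 : 0 ≤ C := (norm_nonneg _).trans (hC 0 (by simp))
    by_cases h1 : ‖a i‖ ≤ ‖z‖
    · have h2 := hC (a i) (by simpa using h1)
      have h3 : (‖a i‖ / ‖z‖) ^ n ≤ 1 := pow_le_one₀ (by positivity) ((div_le_one hz').2 h1)
      rw [norm_div, norm_mul, norm_pow, norm_pow]
      calc ‖a i‖ ^ (j + n) * ‖q.eval (a i)‖ / ‖z‖ ^ (j + n)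
          = (‖a i‖ / ‖z‖) ^ n * (‖q.eval (a i)‖ * (‖a i‖ ^ j / ‖z‖ ^ j)) := by
            rw [div_pow, pow_add, pow_add]
            field_simp
        _ ≤ 1 * (C * (‖a i‖ ^ j / ‖z‖ ^ j)) := by gcongr
        _ = _ := by ring
    · rw [hq i (not_le.1 h1).le fun h => h1 (by rw [h])]
      simp only [mul_zero, zero_div, norm_zero]
      positivity

/-- two summable families with the same power sums have the same nonzero values -/
theorem mem_range_of_powsum {a : I → ℂ} {b : J → ℂ} {j : ℕ} (ha : Summable fun i => ‖a i‖ ^ j)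
    (hb : Summable fun k => ‖b k‖ ^ j) (h : ∀ l, j ≤ l → ∑' i, a i ^ l = ∑' k, b k ^ l) {i : I}
    (hi : a i ≠ 0) : a i ∈ Set.range b := by
  classical
  by_contra hn
  have hz' : 0 < ‖a i‖ := norm_pos_iff.2 hi
  set T : Finset ℂ := ((finite_ge ha hz').toFinset.image a ∪ (finite_ge hb hz').toFinset.image b).erase
    (a i) with hT
  set q : ℂ[X] := ∏ s ∈ T, (X - C s) with hq
  have h0 : ∀ s ∈ T, q.eval s = 0 := fun s hs => by
    rw [hq, eval_prod]
    exact Finset.prod_eq_zero hs (by simp)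
  have h1 : q.eval (a i) ≠ 0 := by
    rw [hq, eval_prod]
    refine Finset.prod_ne_zero_iff.2 fun s hs => ?_
    simpa [sub_eq_zero] using (Finset.ne_of_mem_erase hs).symm
  have t1 := tendsto_ps ha hi (q := q) fun k h2 h3 => h0 _ (by
    simp only [hT, Finset.mem_erase, Finset.mem_union, Finset.mem_image, Set.Finite.mem_toFinset]
    exact ⟨h3, Or.inl ⟨k, h2, rfl⟩⟩)
  have t2 := tendsto_ps hb hi (q := q) fun k h2 h3 => h0 _ (by
    simp only [hT, Finset.mem_erase, Finset.mem_union, Finset.mem_image, Set.Finite.mem_toFinset]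
    exact ⟨h3, Or.inr ⟨k, h2, rfl⟩⟩)
  have e : ∀ n : ℕ, ∑' k, a k ^ (j + n) * q.eval (a k) = ∑' k, b k ^ (j + n) * q.eval (b k) :=
    fun n => by
      rw [tsum_pow_eval ha (Nat.le_add_right j n), tsum_pow_eval hb (Nat.le_add_right j n)]
      exact Finset.sum_congr rfl fun l _ => by rw [h _ (by omega)]
  simp_rw [e] at t1
  have e2 := tendsto_nhds_unique t1 t2
  have e3 : ∀ k, (if b k = a i then q.eval (a i) else 0) = 0 := fun k => if_neg fun h => hn ⟨k, h⟩
  simp_rw [e3, tsum_zero] at e2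
  have hf : {k | a k = a i}.Finite := (finite_ge ha hz').subset fun k hk => by
    simp only [Set.mem_ofPred_eq] at hk ⊢
    rw [hk]
  rw [tsum_eq_sum (s := hf.toFinset) fun k hk => if_neg (by simpa using hk),
    Finset.sum_congr rfl (g := fun _ => q.eval (a i)) fun k hk => if_pos (by simpa using hk),
    Finset.sum_const, nsmul_eq_mul, mul_eq_zero] at e2
  rcases e2 with e2 | e2
  · exact Finset.card_ne_zero.2 ⟨i, by simp⟩ (Nat.cast_eq_zero.1 e2)
  · exact h1 e2

/-- a family with a nonzero member has nonzero power sums of arbitrarily large degree -/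
theorem exists_powsum_ne {a : I → ℂ} {j : ℕ} (ha : Summable fun i => ‖a i‖ ^ j) {i : I}
    (hi : a i ≠ 0) (N : ℕ) : ∃ l, j ≤ l ∧ N ≤ l ∧ ∑' k, a k ^ l ≠ 0 := by
  by_contra hn
  push Not at hn
  obtain ⟨k, -⟩ := mem_range_of_powsum (J := Empty) (b := fun k => k.elim) (summable_pow_add ha N)
    Summable.of_finite (fun l hl => by rw [hn l (by omega) (by omega), tsum_empty]) hi
  exact k.elim

/-- the version for the powers of one exponent -/
theorem pow_mem_range_of_powsum {a : I → ℂ} {b : J → ℂ} {c c' : ℂ} {j e : ℕ} (he : j ≤ e)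
    (ha : Summable fun i => ‖a i‖ ^ j) (hb : Summable fun k => ‖b k‖ ^ j)
    (h : ∀ l, 1 ≤ l → (∑' i, a i ^ (e * l)) / c ^ l = (∑' k, b k ^ (e * l)) / c' ^ l) (i : I) :
    a i ^ e / c ∈ insert 0 (Set.range fun k => b k ^ e / c') := by
  obtain ⟨d, rfl⟩ := Nat.exists_eq_add_of_le he
  by_cases hi : a i ^ (j + d) / c = 0
  · exact Or.inl hi
  refine Or.inr (mem_range_of_powsum (a := fun i => a i ^ (j + d) / c) (j := 1) ?_ ?_
    (fun l hl => ?_) hi)
  · simpa using (summable_pow_add ha d).div_const ‖c‖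
  · simpa using (summable_pow_add hb d).div_const ‖c'‖
  · simp_rw [div_pow, ← pow_mul, tsum_div_const]
    exact h l hl

end Pool.Agent.Lib.MP_5c318e_ag.Z
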