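import Pool.Agent.Lib.MP_5c318e_ag.Z.LDefs
import Pool.Agent.Lib.MP_5c318e_ag.S.CV
import Pool.Agent.Lib.MP_5c318e_ag.B.BrA

/-! Orders at a prime divisor read off from growth near a general point. -/

set_option autoImplicit false
set_option linter.unusedSectionVars false

namespace Pool.Agent.Lib.MP_5c318e_ag

open MeasureTheory Set Filter Topology Metric

theorem le_of_rpow_le {α : Type*} {l : Filter α} [l.NeBot] {t : α → ℝ} (ht : Tendsto t l (𝓝[>] 0))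
    {κ1 κ a s : ℝ} (h1 : 0 < κ1) (h : ∀ᶠ p in l, κ1 * t p ^ a ≤ κ * t p ^ s) : s ≤ a := by
  by_contra! g
  have e : Tendsto (fun p => κ * t p ^ (s - a)) l (𝓝 (κ * 0)) := by
    have := (Real.continuousAt_rpow_const 0 (s - a) (Or.inr (sub_pos.2 g).le)).tendsto
    rw [Real.zero_rpow (sub_pos.2 g).ne'] at this
    exact (this.comp (ht.mono_right nhdsWithin_le_nhds)).const_mul κ
  rw [mul_zero] at e
  refine absurd (ge_of_tendsto e ?_) (not_le.2 h1)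
  filter_upwards [h, ht self_mem_nhdsWithin] with p h2 h3
  have h4 : 0 < t p := h3
  rw [Real.rpow_sub h4, ← mul_div_assoc, le_div_iff₀ (Real.rpow_pos_of_pos h4 _)]
  exact h2

/-- `|ζ i0| ^ (2 σ)` is integrable on a ball only for `σ > -1` -/
theorem lt_of_lintegral {δ : Type} [Fintype δ] [DecidableEq δ] {a : δ → ℂ} {i0 : δ} (ha : a i0 = 0)
    {r κ σ : ℝ} (r0 : 0 < r) (h1 : 0 < κ) (hi : ∫⁻ ζ in {ζ ∈ ball a r | ζ i0 ≠ 0},
      ENNReal.ofReal (κ * ‖ζ i0‖ ^ (2 * σ)) < ⊤) : -1 < σ := by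
  by_contra! g
  let A : ℝ → Set (δ → ℂ) := fun t => Set.pi univ fun i => ball (a i) (if i = i0 then t else r)
  let c : ENNReal := NNReal.pi * ∏ i ∈ Finset.univ.erase i0, volume (ball (a i) r)
  have c0 : c ≠ 0 := mul_ne_zero (by simp [NNReal.pi_ne_zero])
    (Finset.prod_ne_zero_iff.2 fun i _ => (measure_ball_pos _ _ r0).ne')
  have c1 : c ≠ ⊤ := ENNReal.mul_ne_top ENNReal.coe_ne_top
    (ENNReal.prod_ne_top fun i _ => measure_ball_lt_top.ne)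
  have vA : ∀ t, volume (A t) = ENNReal.ofReal t ^ 2 * c := fun t => by
    rw [volume_pi_pi, ← Finset.mul_prod_erase _ _ (Finset.mem_univ i0), if_pos rfl,
      Complex.volume_ball, mul_assoc]
    congr 2
    exact Finset.prod_congr rfl fun i hi => by rw [if_neg (Finset.ne_of_mem_erase hi)]
  have mA : ∀ t, MeasurableSet (A t) := fun t => .univ_pi fun _ => measurableSet_ball
  let U : Set (δ → ℂ) := {ζ ∈ ball a r | ζ i0 ≠ 0}
  have mU : MeasurableSet U :=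
    (isOpen_ball.inter (isOpen_ne_fun (continuous_apply i0) continuous_const)).measurableSet
  have nz : ∀ᵐ ζ : δ → ℂ, ζ i0 ≠ 0 := Measure.ae_eval_ne _ i0 0
  have t0 : Tendsto (fun t => (volume.restrict U) (A t)) (𝓝[>] 0) (𝓝 0) := by
    have e : Tendsto (fun t : ℝ => ENNReal.ofReal t ^ 2 * c) (𝓝 0) (𝓝 (ENNReal.ofReal 0 ^ 2 * c)) :=
      ENNReal.Tendsto.mul_const (((ENNReal.continuous_pow 2).comp
        ENNReal.continuous_ofReal).tendsto 0) (Or.inr c1)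
    simp only [ENNReal.ofReal_zero, ne_eq, OfNat.ofNat_ne_zero, not_false_eq_true, zero_pow,
      zero_mul] at e
    exact tendsto_of_tendsto_of_tendsto_of_le_of_le tendsto_const_nhds
      (e.mono_left nhdsWithin_le_nhds) (fun _ => zero_le)
      fun t => (Measure.restrict_le_self _).trans (vA t).le
  have lim := tendsto_setLIntegral_zero hi.ne (s := A) t0
  refine absurd (ge_of_tendsto lim (a := 0) (b := ENNReal.ofReal κ * c) ?_) (not_le.2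
    (ENNReal.mul_pos (by simpa using h1) c0))
  filter_upwards [Ioo_mem_nhdsGT (lt_min r0 one_pos)] with t ht
  have t1 := ht.1
  have sub : A t ⊆ ball a r := fun ζ hζ => (mem_ball.2 ((dist_pi_lt_iff r0).2 fun i => by
    have : ζ i ∈ ball (a i) (if i = i0 then t else r) := hζ i trivial
    split_ifs at this
    · exact (mem_ball.1 this).trans (ht.2.trans_le (min_le_left _ _))
    · exact this))
  have e : (volume.restrict U).restrict (A t) = volume.restrict (A t) := by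
    rw [Measure.restrict_restrict (mA t)]
    refine Measure.restrict_congr_set ?_
    filter_upwards [nz] with ζ hζ
    exact propext ⟨fun h => h.1, fun h => ⟨h, sub h, hζ⟩⟩
  rw [e]
  calc ENNReal.ofReal κ * c = ENNReal.ofReal (κ / t ^ 2) * volume (A t) := by
        rw [vA, ← mul_assoc (ENNReal.ofReal (κ / _)), ← ENNReal.ofReal_pow t1.le,
          ← ENNReal.ofReal_mul (by positivity), div_mul_cancel₀ _ (by positivity)]
    _ = ∫⁻ _ in A t, ENNReal.ofReal (κ / t ^ 2) := (setLIntegral_const _ _).symm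
    _ ≤ _ := by
        refine lintegral_mono_ae ?_
        filter_upwards [ae_restrict_mem (mA t), ae_restrict_of_ae nz] with ζ h2 h3
        have h4 : ζ i0 ∈ ball (a i0) (if i0 = i0 then t else r) := h2 i0 trivial
        rw [if_pos rfl, ha, mem_ball_zero_iff] at h4
        have h5 : 0 < ‖ζ i0‖ := norm_pos_iff.2 h3
        refine ENNReal.ofReal_le_ofReal ?_
        rw [div_eq_mul_inv]
        refine mul_le_mul_of_nonneg_left ?_ h1.le
        calc (t ^ 2)⁻¹ ≤ (‖ζ i0‖ ^ 2)⁻¹ := by gcongr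
          _ = ‖ζ i0‖ ^ (-2 : ℝ) := by rw [Real.rpow_neg h5.le, Real.rpow_two]
          _ ≤ _ := Real.rpow_le_rpow_of_exponent_ge h5
              (h4.le.trans (ht.2.le.trans (min_le_right _ _))) (by linarith)

variable {δ K : Type} [Fintype δ] [DecidableEq δ] [Field K] [Algebra ℂ K]

namespace Bdy

variable {B : Cht δ K} {P : ValuationSubring K} (b : Bdy B P)

theorem z_ne : b.z ≠ 0 := b.cen.ad.ne

theorem val_lt : P.valuation b.z < 1 := b.cen.ad.lt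

theorem val_pos : 0 < P.valuation b.z := (Valuation.pos_iff _).2 b.z_ne

theorem val_le (a : b.C.O) : P.valuation (a : K) ≤ 1 :=
  (P.valuation_le_one_iff _).2 (b.cen.le a a.2)

theorem val_iff (a : b.C.O) : P.valuation (a : K) = 1 ↔ ¬ b.C.z b.i0 ∣ a := by
  refine ⟨fun h ⟨c, hc⟩ => ?_, fun h => le_antisymm (b.val_le a) (not_lt.1 fun g => h (b.cen.ker a g))⟩
  rw [hc, MulMemClass.coe_mul, map_mul] at h
  exact absurd h (mul_lt_one_of_lt_of_le b.val_lt (b.val_le c)).ne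

theorem mem_gen {Q : Pt b.C.O → Prop} : (∀ᶠ c in b.gen, Q c) ↔ ∃ e : b.C.O,
    P.valuation (e : K) = 1 ∧ ∀ c : Pt b.C.O, c (b.C.z b.i0) = 0 → c e ≠ 0 → Q c := Iff.rfl

theorem gen_z : ∀ᶠ c0 in b.gen, c0 (b.C.z b.i0) = 0 := ⟨1, by simp, fun _ h _ => h⟩

theorem gen_ne {e : b.C.O} (he : P.valuation (e : K) = 1) : ∀ᶠ c0 in b.gen, c0 e ≠ 0 :=
  ⟨e, he, fun _ _ h => h⟩

instance gen_neBot : b.gen.NeBot := ⟨fun h => by
  obtain ⟨e, he, h⟩ : ∀ᶠ _ in b.gen, False := by rw [h]; exact eventually_bot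
  obtain ⟨p, h1, h2⟩ := Pt.exists_zero_ne (I := Ideal.span {b.C.z b.i0}) (h := e) fun ⟨n, hn⟩ =>
    (b.val_iff (e ^ n)).1 (by simp [he]) (Ideal.mem_span_singleton.1 hn)
  exact h p (h1 _ (Ideal.mem_span_singleton_self _)) h2⟩

/-- elements of `P` are regular at general points -/
theorem gen_reg {g : K} (hg : g ∈ P) : ∀ᶠ c0 in b.gen, c0.Reg g := by
  obtain ⟨a, e, he, h⟩ := b.cen.loc g hg
  exact (b.gen_ne he).mono fun c hc => ⟨a, e, hc, h⟩

/-- units of `P` do not vanish at general points -/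
theorem gen_unit {g : K} (hg : P.valuation g = 1) : ∀ᶠ c0 in b.gen, c0.Reg g ∧ c0.ev g ≠ 0 := by
  obtain ⟨a, e, he, h⟩ := b.cen.loc g ((P.valuation_le_one_iff _).1 hg.le)
  have ha : P.valuation (a : K) = 1 := by rw [← h, map_mul, hg, he, one_mul]
  filter_upwards [b.gen_ne he, b.gen_ne ha] with c h1 h2
  exact ⟨⟨a, e, h1, h⟩, by rw [c.ev_eq h1 h]; exact div_ne_zero h2 h1⟩

theorem mem_near {c0 : Pt b.C.O} {Q : Pt B.O → Prop} : (∀ᶠ p in b.near c0, Q p) ↔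
    ∀ᶠ c in 𝓝 c0, c (b.C.z b.i0) ≠ 0 → Q (b.τ.map c) := eventually_nhdsWithin_iff

theorem same {c : Pt b.C.O} (hc : c (b.C.z b.i0) ≠ 0) : c.Same (b.τ.map c) :=
  (b.τ.same c (b.hτ ▸ hc)).1

theorem ev_map {c : Pt b.C.O} (hc : c (b.C.z b.i0) ≠ 0) (g : K) : (b.τ.map c).ev g = c.ev g :=
  (b.same hc g).2.symm

theorem ev_z {c : Pt b.C.O} (hc : c (b.C.z b.i0) ≠ 0) : (b.τ.map c).ev b.z = c (b.C.z b.i0) :=
  (b.ev_map hc _).trans (c.ev_coe _)

theorem near_z (c0 : Pt b.C.O) : ∀ᶠ p in b.near c0, p.Reg b.z ∧ p.ev b.z ≠ 0 :=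
  b.mem_near.2 (.of_forall fun c hc => ⟨(b.same hc _).1.1 (c.reg_coe _), b.ev_z hc ▸ hc⟩)

theorem sec_z {c0 : Pt b.C.O} {ζ : δ → ℂ} (h : ζ ∈ (b.C.D.ch c0).target) :
    b.C.D.sec c0 ζ (b.C.z b.i0) = ζ b.i0 := by rw [← b.C.π_eq, RD.π_sec h]

theorem near_neBot {c0 : Pt b.C.O} (h : c0 (b.C.z b.i0) = 0) : (b.near c0).NeBot := by
  refine Filter.map_neBot (hf := ?_)
  let γ : ℂ → δ → ℂ := fun t => b.C.D.π c0 + Pi.single b.i0 t
  have c : Tendsto γ (𝓝 0) (𝓝 (b.C.D.π c0)) :=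
    (continuous_const.add (continuous_single (A := fun _ => ℂ) b.i0)).tendsto' _ _ (by simp)
  refine Tendsto.neBot (f := b.C.D.sec c0 ∘ γ)
    (x := 𝓝[≠] 0) (tendsto_nhdsWithin_iff.2 ⟨((b.C.D.tendsto_sec c0).comp c).mono_left
      nhdsWithin_le_nhds, ?_⟩)
  filter_upwards [self_mem_nhdsWithin,
    nhdsWithin_le_nhds (c.eventually (RD.tgt_nhds (b.C.D.mem_tgt c0)))] with t h1 h2
  show b.C.D.sec c0 (γ t) _ ≠ 0
  rw [b.sec_z h2]
  simpa [γ, b.C.π_eq, h] using h1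

theorem tendsto_ev {c0 : Pt b.C.O} {g : K} (h : c0.Reg g) :
    Tendsto (fun p => p.ev g) (b.near c0) (𝓝 (c0.ev g)) :=
  tendsto_map' ((h.continuousAt.tendsto.mono_left nhdsWithin_le_nhds).congr'
    (eventually_nhdsWithin_of_forall fun _ hc => (b.ev_map hc g).symm))

theorem near_reg {c0 : Pt b.C.O} {g : K} (h : c0.Reg g) : ∀ᶠ p in b.near c0, p.Reg g :=
  b.mem_near.2 (h.eventually.mono fun _ h1 hc => (b.same hc g).1.1 h1)

theorem tendsto_z {c0 : Pt b.C.O} (h : c0 (b.C.z b.i0) = 0) :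
    Tendsto (fun p => p.ev b.z) (b.near c0) (𝓝[≠] 0) := by
  refine tendsto_nhdsWithin_iff.2 ⟨?_, (b.near_z c0).mono fun _ h => h.2⟩
  have := b.tendsto_ev (c0.reg_coe (b.C.z b.i0))
  rwa [Pt.ev_coe, h] at this

theorem tendsto_norm_z {c0 : Pt b.C.O} (h : c0 (b.C.z b.i0) = 0) :
    Tendsto (fun p => ‖p.ev b.z‖) (b.near c0) (𝓝[>] 0) :=
  tendsto_norm_nhdsNE_zero.comp (b.tendsto_z h)

/-! ### orders -/

theorem exists_ord {g : K} (hg : g ≠ 0) : ∃ k : ℤ, P.valuation g = P.valuation b.z ^ k := by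
  have : IsNoetherianRing b.C.O := Algebra.FiniteType.isNoetherianRing ℂ _
  have key : ∀ a : b.C.O, a ≠ 0 → ∃ n : ℕ, P.valuation (a : K) = P.valuation b.z ^ n := fun a ha => by
    obtain ⟨n, c, h1, h2⟩ := WfDvdMonoid.max_power_factor' (x := b.C.z b.i0) ha fun u =>
      (b.val_iff 1).1 (by simp) u.dvd
    exact ⟨n, by rw [h2, MulMemClass.coe_mul, map_mul, (b.val_iff c).2 h1, mul_one,
      SubmonoidClass.coe_pow, map_pow]; rfl⟩
  obtain ⟨a, e, he, h⟩ := b.C.frac g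
  have e0 : (e : K) ≠ 0 := fun x => he (Subtype.ext x)
  obtain ⟨n, hn⟩ := key a fun x => mul_ne_zero hg e0 (by rw [h, x]; rfl)
  obtain ⟨m, hm⟩ := key e he
  refine ⟨n - m, ?_⟩
  rw [zpow_sub₀ b.val_pos.ne', zpow_natCast, zpow_natCast, ← hn, ← hm, ← h, map_mul,
    mul_div_cancel_right₀ _ ((Valuation.ne_zero_iff _).2 e0)]

theorem ge_val {g : K} {n : ℤ} : b.Ge g n ↔ P.valuation g ≤ P.valuation b.z ^ n := by
  rw [Ge, ← P.valuation_le_one_iff, map_div₀, map_zpow₀, div_le_one₀ (zpow_pos b.val_pos n)]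

theorem ge_iff {g : K} {k n : ℤ} (h : P.valuation g = P.valuation b.z ^ k) : b.Ge g n ↔ n ≤ k := by
  rw [ge_val, h, zpow_le_zpow_iff_right_of_lt_one₀ b.val_pos b.val_lt]

theorem ge_zero (n : ℤ) : b.Ge 0 n := by simp [Ge]

theorem ge_zero_iff {g : K} : b.Ge g 0 ↔ g ∈ P := by simp [Ge]

theorem exists_ge (g : K) : ∃ n : ℤ, b.Ge g n := by
  by_cases h : g = 0
  · exact ⟨0, h ▸ b.ge_zero 0⟩
  · exact (b.exists_ord h).imp fun _ hk => (b.ge_iff hk).2 le_rfl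

theorem eq_zero_of_ge {g : K} (h : ∀ n : ℕ, b.Ge g n) : g = 0 := by
  by_contra h0
  obtain ⟨k, hk⟩ := b.exists_ord h0
  have := (b.ge_iff hk).1 (h (k.toNat + 1))
  omega

variable {b}

theorem Ge.mono {g : K} {n m : ℤ} (h : b.Ge g n) (hm : m ≤ n) : b.Ge g m :=
  b.ge_val.2 ((b.ge_val.1 h).trans (zpow_le_zpow_right_of_le_one₀ b.val_pos b.val_lt.le hm))

theorem Ge.mul {g g' : K} {n m : ℤ} (h : b.Ge g n) (h' : b.Ge g' m) : b.Ge (g * g') (n + m) :=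
  b.ge_val.2 (by
    rw [map_mul, zpow_add₀ b.val_pos.ne']
    exact mul_le_mul' (b.ge_val.1 h) (b.ge_val.1 h'))

theorem Ge.add {g g' : K} {n : ℤ} (h : b.Ge g n) (h' : b.Ge g' n) : b.Ge (g + g') n :=
  b.ge_val.2 (P.valuation.map_add_le (b.ge_val.1 h) (b.ge_val.1 h'))

theorem Ge.pow {g : K} {n : ℤ} (h : b.Ge g n) (j : ℕ) : b.Ge (g ^ j) (n * j) :=
  b.ge_val.2 (by
    rw [map_pow, zpow_mul, zpow_natCast]
    exact pow_le_pow_left' (b.ge_val.1 h) j)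

theorem Ge.smul {g : K} {n : ℤ} (h : b.Ge g n) (c : ℂ) : b.Ge (c • g) n := by
  have := (b.ge_zero_iff.2 (b.cen.le _ (b.C.O.algebraMap_mem c))).mul h
  rwa [zero_add, ← Algebra.smul_def] at this

variable (b)

/-- the elements of order at least `n` -/
def geSub (n : ℤ) : Submodule ℂ K where
  carrier := {g | b.Ge g n}
  add_mem' := Ge.add
  zero_mem' := b.ge_zero n
  smul_mem' := fun c _ h => h.smul c

theorem split {c0 : Pt b.C.O} {g : K} (n : ℤ) (h : c0.Reg (g / b.z ^ n)) : ∀ᶠ p in b.near c0,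
    p.Reg g ∧ ‖p.ev g‖ = ‖p.ev (g / b.z ^ n)‖ * ‖p.ev b.z‖ ^ n := by
  filter_upwards [b.near_reg h, b.near_z c0] with p h1 h2
  have h3 := p.ev_zpow h2.1 h2.2 n
  have h4 := p.ev_mul h1 h3.1
  rw [div_mul_cancel₀ _ (zpow_ne_zero n b.z_ne)] at h4
  exact ⟨h4.1, by rw [h4.2, h3.2, norm_mul, norm_zpow]⟩

/-- growth from the order -/
theorem Ge.bound {b : Bdy B P} {g : K} {n : ℤ} (h : b.Ge g n) : ∀ᶠ c0 in b.gen, ∃ κ : ℝ, 0 < κ ∧
    ∀ᶠ p in b.near c0, p.Reg g ∧ ‖p.ev g‖ ≤ κ * ‖p.ev b.z‖ ^ n := by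
  filter_upwards [b.gen_reg h] with c0 h0
  refine ⟨‖c0.ev (g / b.z ^ n)‖ + 1, by positivity, ?_⟩
  filter_upwards [b.split n h0, (b.tendsto_ev h0).norm.eventually (gt_mem_nhds (lt_add_one _))]
    with p h1 h2
  exact ⟨h1.1, h1.2 ▸ mul_le_mul_of_nonneg_right h2.le (by positivity)⟩

/-- two sided growth -/
theorem asym {g : K} {k : ℤ} (h : P.valuation g = P.valuation b.z ^ k) :
    ∀ᶠ c0 in b.gen, ∃ κ1 κ2 : ℝ, 0 < κ1 ∧ 0 < κ2 ∧ ∀ᶠ p in b.near c0, p.Reg g ∧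
      κ1 * ‖p.ev b.z‖ ^ k ≤ ‖p.ev g‖ ∧ ‖p.ev g‖ ≤ κ2 * ‖p.ev b.z‖ ^ k := by
  filter_upwards [b.gen_unit (g := g / b.z ^ k) (by
    rw [map_div₀, map_zpow₀, h, div_self (zpow_pos b.val_pos k).ne']),
    ((b.ge_iff h).2 le_rfl).bound] with c0 h0 ⟨κ, κ0, h1⟩
  have p0 := norm_pos_iff.2 h0.2
  refine ⟨‖c0.ev (g / b.z ^ k)‖ / 2, κ, half_pos p0, κ0, ?_⟩
  filter_upwards [b.split k h0.1, h1,
    (b.tendsto_ev h0.1).norm.eventually (lt_mem_nhds (half_lt_self p0))] with p h2 h3 h4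
  exact ⟨h2.1, h2.2 ▸ mul_le_mul_of_nonneg_right h4.le (by positivity), h3.2⟩

/-- comparison of two powers near a general point -/
theorem le_of_near {a s : ℝ} (h : ∃ᶠ c0 in b.gen, ∃ κ1 κ : ℝ, 0 < κ1 ∧ ∀ᶠ p in b.near c0,
    κ1 * ‖p.ev b.z‖ ^ a ≤ κ * ‖p.ev b.z‖ ^ s) : s ≤ a := by
  obtain ⟨c0, ⟨κ1, κ, h1, h2⟩, h0⟩ := (h.and_eventually b.gen_z).exists
  have := b.near_neBot h0
  exact le_of_rpow_le (b.tendsto_norm_z h0) h1 h2

/-- ORDER LINK -/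
theorem ol {g : K} {n : ℤ} {s : ℝ} (h : ∃ᶠ c0 in b.gen, ∃ κ : ℝ, ∀ᶠ p in b.near c0,
    ‖p.ev g‖ ≤ κ * ‖p.ev b.z‖ ^ s) (hs : (n : ℝ) - 1 < s) : b.Ge g n := by
  by_cases h0 : g = 0
  · exact h0 ▸ b.ge_zero n
  obtain ⟨k, hk⟩ := b.exists_ord h0
  have : s ≤ k := b.le_of_near ((h.and_eventually (b.asym hk)).mono
    fun c0 ⟨⟨κ, h1⟩, κ1, _, h2, _, h3⟩ => ⟨κ1, κ, h2, by
      filter_upwards [h1, h3] with p h4 h5
      rw [Real.rpow_intCast]
      exact h5.2.1.trans h4⟩)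
  have : ((n - 1 : ℤ) : ℝ) < k := by push_cast; linarith
  exact (b.ge_iff hk).2 (by have := Int.cast_lt.1 this; omega)

/-- the same with an integer exponent -/
theorem ol_int {g : K} {n : ℤ} (h : ∀ᶠ c0 in b.gen, ∃ κ : ℝ, ∀ᶠ p in b.near c0,
    ‖p.ev g‖ ≤ κ * ‖p.ev b.z‖ ^ n) : b.Ge g n :=
  b.ol (s := n) (by simpa only [Real.rpow_intCast] using h.frequently) (by linarith)

/-! ### the measure -/

theorem J_mul : b.J * Jac b.C.der (fun i => (B.z i : K)) = 1 := by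
  rw [J, mul_comm, ← B.dual.jac_chain, b.C.dual.jac_one]

theorem J_ne : b.J ≠ 0 := left_ne_zero_of_mul_eq_one b.J_mul

theorem reg_J {c : Pt b.C.O} (hc : c (b.C.z b.i0) ≠ 0) : c.Reg b.J ∧ c.ev b.J ≠ 0 ∧
    c.ev (Jac b.C.der fun i => (B.z i : K)) = (c.ev b.J)⁻¹ := by
  have h1 : c.Reg b.J := (b.same hc _).1.2
    (B.cvEv.reg_jac fun i => (b.same hc _).1.1 (c.reg_coe _))
  have h2 : c.Reg (Jac b.C.der fun i => (B.z i : K)) :=
    b.C.cvEv.reg_jac fun i => (b.τ.map_apply (b.hτ ▸ hc) _).1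
  have h3 := (c.ev_mul h1 h2).2
  rw [b.J_mul, c.ev_one] at h3
  exact ⟨h1, left_ne_zero_of_mul_eq_one h3.symm, (inv_eq_of_mul_eq_one_right h3.symm).symm⟩

/-- the coordinates of `C` near `c0`, read in `B` -/
noncomputable def Hm (c0 : Pt b.C.O) (ζ : δ → ℂ) : Pt B.O := b.τ.map (b.C.D.sec c0 ζ)

/-- the punctured chart -/
def dom (c0 : Pt b.C.O) : Set (δ → ℂ) := {ζ ∈ (b.C.D.ch c0).target | ζ b.i0 ≠ 0}

variable {b} {c0 : Pt b.C.O} {ζ : δ → ℂ}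

theorem isOpen_dom : IsOpen (b.dom c0) :=
  (b.C.D.ch c0).open_target.inter (isOpen_ne_fun (continuous_apply _) continuous_const)

theorem dom_z (h : ζ ∈ b.dom c0) : b.C.D.sec c0 ζ (b.C.z b.i0) ≠ 0 := b.sec_z h.1 ▸ h.2

theorem Hm_z (h : ζ ∈ b.dom c0) : (b.Hm c0 ζ).ev b.z = ζ b.i0 :=
  (b.ev_z (dom_z h)).trans (b.sec_z h.1)

theorem Hm_cont : ContinuousOn (b.Hm c0) (b.dom c0) := fun _ h =>
  ((b.τ.continuousAt (b.hτ ▸ dom_z h)).comp (RD.sec_contAt h.1)).continuousWithinAt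

theorem Hm_inj : InjOn (b.Hm c0) (b.dom c0) := fun _ h _ h' e => by
  have := congrArg b.C.D.π (b.τ.injOn (show _ ≠ _ from b.hτ ▸ dom_z h)
    (show _ ≠ _ from b.hτ ▸ dom_z h') e)
  rwa [RD.π_sec h.1, RD.π_sec h'.1] at this

theorem Hm_diff (h : ζ ∈ b.dom c0) {g : K} (hg : (b.Hm c0 ζ).Reg g) :
    DifferentiableAt ℂ (fun w => (b.Hm c0 w).ev g) ζ := by
  have d := (b.C.cvEv.diff (p := b.C.D.sec c0 ζ) ((b.same (dom_z h) g).1.2 hg)).1
  rw [RD.π_sec h.1] at d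
  refine (d.congr_of_eventuallyEq (RD.germ_f (fun p => p.ev g) h.1)).congr_of_eventuallyEq ?_
  filter_upwards [isOpen_dom.mem_nhds h] with w hw using b.ev_map (dom_z hw) g

theorem Hm_hmap : Br.HMap B.D (b.dom c0) (b.Hm c0) :=
  ⟨isOpen_dom, Hm_cont, fun _ h => (differentiableAt_pi.2 fun i => by
    simpa only [Pt.ev_coe, ← B.π_eq] using
      Hm_diff h (Pt.reg_coe _ (B.z i))).differentiableWithinAt⟩

/-- `near` in the coordinates -/
theorem near_iff {Q : Pt B.O → Prop} : (∀ᶠ p in b.near c0, Q p) ↔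
    ∀ᶠ ζ in 𝓝 (b.C.D.π c0), ζ b.i0 ≠ 0 → Q (b.Hm c0 ζ) := by
  rw [b.mem_near]
  constructor
  · intro h
    filter_upwards [(b.C.D.tendsto_sec c0).eventually h, RD.tgt_nhds (b.C.D.mem_tgt c0)]
      with ζ h1 h2 h3 using h1 (dom_z ⟨h2, h3⟩)
  · intro h
    filter_upwards [b.C.D.cont_π.continuousAt.eventually h,
      (b.C.D.ch c0).open_source.mem_nhds (b.C.D.mem_src c0)] with c h1 h2 h3
    have := h1 (by rwa [b.C.π_eq])
    rwa [Hm, RD.sec_π h2] at this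

theorem near_ball {Q : Pt B.O → Prop} (h : ∀ᶠ p in b.near c0, Q p) : ∃ r > 0,
    ball (b.C.D.π c0) r ⊆ (b.C.D.ch c0).target ∧
      ∀ ζ ∈ ball (b.C.D.π c0) r, ζ b.i0 ≠ 0 → Q (b.Hm c0 ζ) := by
  obtain ⟨r, r0, hr⟩ := Metric.eventually_nhds_iff_ball.1
    ((near_iff.1 h).and (RD.tgt_nhds (b.C.D.mem_tgt c0)))
  exact ⟨r, r0, fun ζ h => (hr ζ h).2, fun ζ h => (hr ζ h).1⟩

/-- MEAS: the measure of `B` in the coordinates of `C`; no measurability of `G` is needed -/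
theorem meas {A : Set (δ → ℂ)} (hA : IsOpen A) (hs : A ⊆ b.dom c0) {F : (δ → ℂ) → ENNReal}
    (hF : Measurable F) {G : Pt B.O → ENNReal} (h : ∀ ζ ∈ A,
      F ζ ≤ ENNReal.ofReal (‖(b.Hm c0 ζ).ev b.J‖⁻¹ ^ 2) * G (b.Hm c0 ζ)) :
    ∫⁻ ζ in A, F ζ ≤ ∫⁻ p, G p ∂B.D.μ := by
  let V : Set (Pt b.C.O) := (b.C.D.ch c0).source ∩ b.C.D.π ⁻¹' A
  have oV : IsOpen V := (b.C.D.ch c0).open_source.inter (hA.preimage b.C.D.cont_π)
  let U : Set (Pt B.O) := {q | q b.τ.h' ≠ 0} ∩ b.τ.inv ⁻¹' V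
  have oU : IsOpen U := b.τ.symm.continuousOn.isOpen_inter_preimage b.τ.symm.isOpen oV
  let π' : Pt B.O → δ → ℂ := fun q i => q.ev (b.C.z i)
  have mπ : Measurable π' := measurable_pi_lambda _ fun i => Pt.measurable_ev _
  let G' : Pt B.O → ENNReal := U.indicator fun q => ENNReal.ofReal (‖q.ev b.J‖ ^ 2) * F (π' q)
  have mG : Measurable G' := (((Pt.measurable_ev _).norm.pow_const 2).ennreal_ofReal.mul
    (hF.comp mπ)).indicator oU.measurableSet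
  have key : ∀ c : Pt b.C.O, c (b.C.z b.i0) ≠ 0 → π' (b.τ.map c) = b.C.D.π c := fun c hc =>
    funext fun i => by rw [b.C.π_eq, ← Pt.ev_coe, ← b.ev_map hc]
  have one : ∀ {x : ℂ}, x ≠ 0 → ENNReal.ofReal (‖x‖⁻¹ ^ 2) * ENNReal.ofReal (‖x‖ ^ 2) = 1 :=
    fun hx => by
      rw [← ENNReal.ofReal_mul (by positivity), ← mul_pow, inv_mul_cancel₀ (norm_ne_zero_iff.2 hx),
        one_pow, ENNReal.ofReal_one]
  have le : ∀ q, G' q ≤ G q := fun q => by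
    by_cases hq : q ∈ U
    · obtain ⟨-, h1, h2⟩ := b.τ.same' q hq.1
      rw [b.hτ] at h1
      have h3 : b.Hm c0 (b.C.D.π (b.τ.inv q)) = q := by rw [Hm, RD.sec_π hq.2.1, h2]
      have h4 := h _ hq.2.2
      have h5 : q.ev b.J ≠ 0 := by rw [← h2, b.ev_map h1]; exact (b.reg_J h1).2.1
      rw [h3, ← key _ h1, h2] at h4
      simp only [G', indicator_of_mem hq]
      refine (mul_le_mul_right h4 _).trans_eq ?_
      rw [← mul_assoc, mul_comm (ENNReal.ofReal _), one h5, one_mul]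
    · simp only [G', indicator_of_notMem hq, zero_le]
  refine le_trans ?_ (lintegral_mono le)
  have sub : V ⊆ {p | p b.τ.h ≠ 0} := fun c hc => by
    have := (hs hc.2).2
    rwa [b.C.π_eq, ← b.hτ] at this
  rw [b.C.cv B b.τ mG]
  refine le_trans (le_of_eq ?_) (lintegral_mono_set sub)
  have e : ∫⁻ c in V, F (b.C.D.π c) ∂b.C.D.μ = ∫⁻ ζ in A, F ζ := by
    have m : Measurable fun c => F (b.C.D.π c) := hF.comp b.C.D.cont_π.measurable
    rw [show V = b.C.D.π ⁻¹' A ∩ (b.C.D.ch c0).source from inter_comm _ _,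
      ← Measure.restrict_restrict (hA.preimage b.C.D.cont_π).measurableSet,
      b.C.D.restrict_src, ← lintegral_indicator (hA.preimage b.C.D.cont_π).measurableSet,
      lintegral_map' (m.indicator (hA.preimage b.C.D.cont_π).measurableSet).aemeasurable
        (b.C.D.sec_aem c0)]
    conv_rhs => rw [← inter_eq_left.2 fun ζ (h : ζ ∈ A) => (hs h).1,
      ← Measure.restrict_restrict hA.measurableSet, ← lintegral_indicator hA.measurableSet]
    refine setLIntegral_congr_fun (b.C.D.ch c0).open_target.measurableSet fun ζ hζ => ?_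
    by_cases h1 : ζ ∈ A
    · rw [indicator_of_mem h1, indicator_of_mem (by rwa [mem_preimage, RD.π_sec hζ]), RD.π_sec hζ]
    · rw [indicator_of_notMem h1, indicator_of_notMem (by rwa [mem_preimage, RD.π_sec hζ])]
  rw [← e]
  refine setLIntegral_congr_fun oV.measurableSet fun c hc => ?_
  have h1 := sub hc
  have h2 : c (b.C.z b.i0) ≠ 0 := b.hτ ▸ h1
  have h3 : b.τ.map c ∈ U := ⟨(b.τ.same c h1).2.1, by rwa [mem_preimage, (b.τ.same c h1).2.2]⟩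
  simp only [G', indicator_of_mem h3]
  rw [key c h2, b.ev_map h2, (b.reg_J h2).2.2, norm_inv, ← mul_assoc, one (b.reg_J h2).2.1, one_mul]

variable (b)

/-- `L¹` LINK: an integrable function is not larger than `|J|² |z| ^ (-2)` -/
theorem l1 {w : Pt B.O → ENNReal} (hi : ∫⁻ p, w p ∂B.D.μ < ⊤) {kJ : ℤ}
    (hJ : P.valuation b.J = P.valuation b.z ^ kJ) {s : ℝ}
    (h : ∃ᶠ c0 in b.gen, ∃ κ : ℝ, 0 < κ ∧ ∀ᶠ p in b.near c0,
      ENNReal.ofReal (κ * ‖p.ev b.z‖ ^ (2 * s)) ≤ w p) : (kJ : ℝ) - 1 < s := by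
  obtain ⟨c0, ⟨⟨κ, κ0, h1⟩, κ1, κ2, k1, k2, h2⟩, h0⟩ :=
    ((h.and_eventually (b.asym hJ)).and_eventually b.gen_z).exists
  obtain ⟨r, r0, hr, h3⟩ := near_ball (h1.and h2)
  have := lt_of_lintegral (a := b.C.D.π c0) (i0 := b.i0) (by rwa [b.C.π_eq]) r0
    (κ := κ / κ2 ^ 2) (σ := s - kJ) (by positivity) (lt_of_le_of_lt (meas (c0 := c0)
      (isOpen_ball.inter (isOpen_ne_fun (continuous_apply _) continuous_const))
      (fun ζ hζ => ⟨hr hζ.1, hζ.2⟩) (by fun_prop) fun ζ hζ => ?_) hi)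
  · linarith
  obtain ⟨h4, -, h5, h6⟩ := h3 ζ hζ.1 hζ.2
  rw [Hm_z ⟨hr hζ.1, hζ.2⟩] at h4 h5 h6
  have z0 : 0 < ‖ζ b.i0‖ := norm_pos_iff.2 hζ.2
  have j0 : 0 < ‖(b.Hm c0 ζ).ev b.J‖ := lt_of_lt_of_le (by positivity) h5
  refine le_trans ?_ (mul_le_mul_right h4 _)
  rw [← ENNReal.ofReal_mul (by positivity)]
  refine ENNReal.ofReal_le_ofReal ?_
  calc κ / κ2 ^ 2 * ‖ζ b.i0‖ ^ (2 * (s - kJ))
      = (κ2 * ‖ζ b.i0‖ ^ kJ)⁻¹ ^ 2 * (κ * ‖ζ b.i0‖ ^ (2 * s)) := by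
        rw [mul_sub, Real.rpow_sub z0, mul_comm 2 (kJ : ℝ), Real.rpow_mul z0.le (kJ : ℝ),
          Real.rpow_intCast, Real.rpow_two]
        field_simp
    _ ≤ _ := by gcongr

end Bdy

end Pool.Agent.Lib.MP_5c318e_ag
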