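import Pool.Agent.Lib.MP_5c318e_ag.Z.LDefs
import Pool.Agent.Lib.MP_5c318e_ag.G.Lin

/-! A power of the norm of the Hodge line satisfies the scalar interface. -/

set_option autoImplicit false

namespace Pool.Agent.Lib.MP_5c318e_ag

variable {δ K : Type} [Fintype δ] [DecidableEq δ] [Field K] [Algebra ℂ K] {n : Type} [Fintype n]
  [DecidableEq n] {w ν : ℕ}

theorem Lin.of_pk {B : FCht δ K} {V : G.Pk B.D n w} {om : V.Bt → n → ℂ} (T : V.Top om)
    (ne : ∀ x, om x ≠ 0) (h : Br.Line V om) (rk : Br.RkAt V om ν) {Dn : Pt B.O → ℝ} {c : ℝ}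
    {M : ℕ} (hc : 0 < c) (hM : 0 < M) (e : ∀ p, Dn p = c * V.N om p ^ M) (tem : B.Tem Dn)
    (tem' : B.Tem fun p => (Dn p)⁻¹) : Lin B Dn ν where
  pos := Br.pow_pos' ne hc e
  psh := h.psh_pow T ne hc e
  ana := Br.ana_pow T e
  tem := tem
  tem' := tem'
  low := h.low_pow T ne rk hc hM e

end Pool.Agent.Lib.MP_5c318e_ag
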