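import Pool.Agent.Lib.MP_5c318e_ag.Z.KDefs
import Pool.Agent.Lib.MP_5c318e_ag.Z.Lin
import Pool.Agent.Lib.MP_5c318e_ag.Ky.Tem
import Pool.Agent.Lib.MP_5c318e_ag.D.Bas

/-! From the set-up of a family to the scalar interface on the base. -/

set_option autoImplicit false
set_option linter.unusedSectionVars false

namespace Pool.Agent.Lib.MP_5c318e_ag

open MeasureTheory Set Filter Topology

variable {δ K : Type} [Fintype δ] [DecidableEq δ] [Field K] [Algebra ℂ K]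

namespace FCht

variable (B : FCht δ K)

theorem tem_exp_siz : B.Tem fun p => Real.exp (B.siz p) :=
  Tem.mono B (Tem.add B (Tem.sum B B.gens fun a _ => Tem.pow B (B.tem_O a) (fun _ => norm_nonneg _) 2)
    (B.tem_const 1)) fun p => by rw [Cht.siz, Real.exp_log (by positivity)]

theorem tem_of_md {u : Pt B.O → ℝ} (h : Md B.siz u) : B.Tem u := by
  obtain ⟨L, h0, h⟩ := h
  refine Tem.mono B (Tem.mul B (Tem.rpow B B.tem_exp_siz (fun _ => (Real.exp_pos _).le) h0)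
    (B.tem_const (Real.exp L)) (fun _ => by positivity) fun _ => by positivity) fun p => ?_
  rw [← Real.exp_mul, ← Real.exp_add, mul_comm]
  exact h p

end FCht

variable {ν M : Type} [Fintype ν] [DecidableEq ν] [Field M] [Algebra ℂ M] [Algebra K M]
  [IsScalarTower ℂ K M]

theorem Dat.base (d : Dat δ K ν M) : Base d.fc d.η d.k where
  pos := d.hk
  plu := d.plu
  mem := d.η.2
  ne := fun p => by rw [Pt.ev_coe]; exact (d.unit.map p).ne_zero
  mass := by
    refine lt_of_eq_of_lt (lintegral_congr fun p => ?_) d.fin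
    rw [FCht.dn, Pt.ev_coe, ← ofReal_norm, ENNReal.ofReal_rpow_of_nonneg (norm_nonneg _)
      (by positivity)]

theorem Dat.tem_Dd (d : Dat δ K ν M) : d.fc.Tem d.Dd ∧ d.fc.Tem fun b => (d.Dd b)⁻¹ :=
  ⟨d.fc.tem_of_md d.md_Dd.1, d.fc.tem_of_md d.md_Dd.2⟩

theorem Dat.tem_Dn (d : Dat δ K ν M) (M0 : ℕ) :
    d.fc.Tem (d.Dn M0) ∧ d.fc.Tem fun b => (d.Dn M0 b)⁻¹ :=
  ⟨FCht.Tem.pow _ d.tem_Dd.1 (fun p => (d.Dd_pos p).le) M0, by
    simpa only [inv_pow] using
      FCht.Tem.pow _ d.tem_Dd.2 (fun p => inv_nonneg.2 (d.Dd_pos p).le) M0⟩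

theorem Dat.Pkg.lin {d : Dat δ K ν M} (P : d.Pkg) {M0 : ℕ} (h : 0 < M0) :
    Lin d.fc (d.Dn M0) P.rk :=
  Lin.of_pk (B := d.fc) P.hl.top P.hl.ne P.hl.full P.rk_eq one_pos h
    (fun p => by rw [P.nrm, one_mul]) (d.tem_Dn M0).1 (d.tem_Dn M0).2

end Pool.Agent.Lib.MP_5c318e_ag
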