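import Pool.Agent.Lib.MP_5c318e_ag.D.Ex
import Pool.Agent.Lib.MP_5c318e_ag.S.Geo

/-! From the output of the last step to the inequality between Kodaira dimensions. -/

set_option autoImplicit false
set_option linter.unusedSectionVars false

namespace Pool.Agent.Lib.MP_5c318e_ag

open Set

section lift

variable {k F F' ι : Type} [Field k] [CharZero k] [Field F] [Field F'] [Algebra k F] [Algebra F F']
  [Algebra k F'] [IsScalarTower k F F'] [Fintype ι] [DecidableEq ι]

/-- regular forms pull back to an algebraic extension -/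
theorem Plu.lift [Algebra.IsAlgebraic F F'] {D : ι → Derivation k F F} {D' : ι → Derivation k F' F'}
    (hD : IsFr D) (hl : Lifts D D') {m : ℕ} {φ : F} (h : Plu D m φ) :
    Plu D' m (algebraMap F F' φ) := fun O hO => by
  have hL : ¬ ∀ a : F, algebraMap F F' a ∈ O := fun hL => by
    have := hO.horiz (τ := Empty) hD.trdeg (by simp [trdeg_eq_zero]) hL
    obtain ⟨-, n, -, hn, -⟩ := this
    rw [trdeg_eq_zero] at hn
    exact Nat.succ_ne_zero n (by exact_mod_cast hn)
  obtain ⟨f, hf, u, hu, rfl⟩ := h _ (hO.comap (τ := Empty) hD.trdeg (by simp [trdeg_eq_zero]) hL)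
  exact ⟨algebraMap F F' ∘ f, hf, _, hu, by rw [hl.jac, map_mul, map_pow]⟩

/-- the Kodaira dimension does not drop under algebraic extensions -/
theorem kod_le_const {k' : Type} [Field k'] [Algebra k k'] [Algebra k' F'] [IsScalarTower k k' F']
    [Algebra.IsAlgebraic k k'] [Algebra.IsAlgebraic F F'] {x : ι → F}
    (hx : IsTranscendenceBasis k x) : kod k F ≤ kod k' F' := by
  have : CharZero k' := charZero_of_injective_algebraMap (algebraMap k k').injective
  obtain ⟨D, hD⟩ := der_dual_exists hx.1
  have hF := isFr_dual hx hD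
  obtain ⟨D', hl⟩ := exists_lifts (F := F') D
  have hx' : IsTranscendenceBasis k (algebraMap F F' ∘ x) := hx.algebraMap_comp
  have hF' : IsFr D' := ⟨_, hx', by rw [hl.jac, jac_self hD, map_one]; exact one_ne_zero⟩
  have hx'' := (Algebra.IsAlgebraic.isTranscendenceBasis_iff k k').1 hx'
  obtain ⟨E, hE⟩ := der_dual_exists hx''.1
  have h1 := isFr_dual hx'' hE
  let G0 : Empty → Derivation k k' k' := Empty.elim
  let G : Empty → Derivation k F' F' := Empty.elim
  have h0 : IsFr G0 := exists_basis_of_trdeg (ι := Empty) (by simp [trdeg_eq_zero]) |>.imp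
    fun b hb => ⟨hb, by simp [Jac]⟩
  have hg : Lifts G0 G := fun j => j.elim
  obtain ⟨a, a0, ea⟩ := (h0.split hg h1).change hF'
  have h2 : ∀ m φ, PluD D m φ → PluD E m (algebraMap F F' φ * a ^ m) := fun m φ h =>
    ((ea m _).1 ((plu_iff hF').1 (Plu.lift hF hl ((plu_iff hF).2 h)))).fibre h0 hg
  by_cases hne : kod k F = ⊥
  · simp [hne]
  obtain ⟨n, hn, -, -⟩ := kod_eq_nat hF hne
  obtain ⟨m, hm, η, η0, hη, h, hi, hh⟩ := (le_kod_iff hF).1 hn.ge
  rw [hn, le_kod_iff h1]
  refine ⟨m, hm, _, mul_ne_zero ((map_ne_zero _).2 η0) (pow_ne_zero _ a0), h2 _ _ hη,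
    algebraMap F F' ∘ h, (hi.map' (f := IsScalarTower.toAlgHom k F F')
      (algebraMap F F').injective).extendScalars k', fun j => ?_⟩
  have := h2 _ _ (hh j)
  rwa [map_mul, mul_assoc] at this

end lift

section geo

open IntermediateField

variable {Om : Type} [Field Om] [Algebra ℂ Om] [IsAlgClosed Om] {K M : IntermediateField ℂ Om}

/-- the generic fibre and the geometric generic fibre have the same Kodaira dimension -/
theorem kod_geo_eq (hKM : K ≤ M) (hfg : (⊤ : IntermediateField K (extendScalars hKM)).FG) :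
    kod (aclC K) (adjoin (aclC K) (M : Set Om)) = kod K (extendScalars hKM) := by
  refine (kod_geo_le hKM hfg).antisymm ?_
  have : CharZero K := charZero_of_injective_algebraMap (algebraMap ℂ K).injective
  obtain ⟨n, x, hx⟩ := exists_basis_of_fg hfg
  let _ : Algebra K (aclC K) := (algebraicClosure K Om).algebra
  have : IsScalarTower K (aclC K) Om := .of_algebraMap_eq fun _ => rfl
  have : Algebra.IsAlgebraic K (aclC K) :=
    inferInstanceAs (Algebra.IsAlgebraic K (algebraicClosure K Om))
  let N := adjoin (aclC K) (M : Set Om)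
  let _ : Algebra (extendScalars hKM) N := ((extendScalars hKM).val.toRingHom.codRestrict
    N.toSubfield fun a => subset_adjoin _ _ a.2).toAlgebra
  have : IsScalarTower K (extendScalars hKM) N := .of_algebraMap_eq fun _ => rfl
  have : IsScalarTower (extendScalars hKM) N Om := .of_algebraMap_eq fun _ => rfl
  have : Algebra.IsAlgebraic (extendScalars hKM) N := ⟨fun y => by
    refine (isAlgebraic_algebraMap_iff (A := Om) (algebraMap N Om).injective).1 ?_
    obtain ⟨y, hy⟩ := y
    change IsAlgebraic (extendScalars hKM) y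
    induction hy using adjoin_induction with
    | mem y hy => exact isAlgebraic_algebraMap (⟨y, hy⟩ : extendScalars hKM)
    | algebraMap y => exact (mem_algebraicClosure_iff.1 y.2).tower_top _
    | add y z _ _ h1 h2 => exact h1.add h2
    | inv y _ h => exact h.inv
    | mul y z _ _ h1 h2 => exact h1.mul h2⟩
  exact kod_le_const hx

end geo

variable {δ ν K M : Type} [Fintype δ] [DecidableEq δ] [Fintype ν] [DecidableEq ν]
  [Field K] [Algebra ℂ K] [Field M] [Algebra ℂ M] [Algebra K M] [IsScalarTower ℂ K M]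

/-- Kodaira dimension zero: rank one -/
theorem Dat.r_eq_one (d : Dat δ K ν M) (h : kod K M ≤ 0) : d.r = 1 := by
  have : CharZero K := charZero_of_injective_algebraMap (algebraMap ℂ K).injective
  have hr := d.hr
  have hm := d.hm
  by_contra hne
  let i : Fin d.r := ⟨0, hr⟩
  let j : Fin d.r := ⟨1, by omega⟩
  have hp : ∀ l, PluD d.T.dx d.m (d.τ l : M) := fun l => (plu_iff d.T.dual.isFr).1
    ((d.span _).2 (Submodule.subset_span ⟨l, rfl⟩))
  have h0 : (d.τ j : M) ≠ 0 := d.ind.ne_zero j
  by_cases ha : IsAlgebraic K ((d.τ i : M) / d.τ j)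
  · obtain ⟨c, hc⟩ := d.ac _ ha
    have := d.ind.eq_of_smul_apply_eq_smul_apply 1 c i j one_ne_zero (by
      rw [one_smul, Algebra.smul_def, hc, div_mul_cancel₀ _ h0])
    simp [i, j] at this
  · have := ((le_kod_iff d.T.dual.isFr (n := 1)).2 ⟨d.m, by omega, _, h0, hp j,
      fun _ => (d.τ i : M) / d.τ j, (algebraicIndependent_unique_type_iff).2 ha,
      fun _ => by simpa [div_mul_cancel₀ _ h0] using hp i⟩).trans h
    rw [Nat.cast_one, ← WithBot.coe_zero, WithBot.coe_le_coe] at this
    simp at this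

/-- the inequality from the output of the last step -/
theorem kod_of_endOut (hY : SmoothModel ℂ K) (hF : SmoothModel K M)
    (hc : ∀ x : M, IsAlgebraic K x → x ∈ range (algebraMap K M))
    (H : ∀ (a n : ℕ) (d : Dat (Fin a) K (Fin n) M), EndOut d) :
    kod K M + kod ℂ K ≤ kod ℂ M := by
  refine kod_of_endF hY hF fun a n y dK x dx dM hK hx hM m k r t η hm hk hr hs hi h0 hη => ?_
  obtain ⟨d, -, -, rfl, rfl, -, -, -⟩ := Dat.exists hY hF hc hK hx hm hk hr hs hi h0 hη ∅
  exact EndF.change hK.isFr hx.isFr hM.isFr d.B.dual.isFr d.T.dual.isFr d.T.X.dual.isFr (H a n d)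

end Pool.Agent.Lib.MP_5c318e_ag
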