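import Pool.Agent.Lib.MP_5c318e_ag.Z.Main
import Pool.Agent.Lib.MP_5c318e_ag.Z.Fin
import Pool.Agent.Lib.MP_5c318e_ag.Va.V1
import Pool.Agent.Lib.MP_5c318e_ag.Va.Var

/-! The inequality with the variation, reduced to families over curves. -/

set_option autoImplicit false

namespace Pool.Agent.Lib.MP_5c318e_ag

open Set

section abs

variable {K M : Type} [Field K] [Algebra ℂ K] [Field M] [Algebra ℂ M] [Algebra K M]
  [IsScalarTower ℂ K M]

/-- a set-up of a given weight -/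
theorem exists_dat (hY : SmoothModel ℂ K) (hF : SmoothModel K M)
    (hc : ∀ x : M, IsAlgebraic K x → x ∈ range (algebraMap K M)) (h0 : kod ℂ K ≠ ⊥) {m : ℕ}
    (hm : 3 ≤ m) (hb : Big K M m) : ∃ (a n : ℕ) (d : Dat (Fin a) K (Fin n) M), d.m = m := by
  have : CharZero K := charZero_of_injective_algebraMap (algebraMap ℂ K).injective
  obtain ⟨a, y, hy⟩ := exists_basis_of_fg hY.fg
  obtain ⟨n, x, hx⟩ := exists_basis_of_fg hF.fg
  obtain ⟨dK, hK⟩ := Dual.exists hy
  obtain ⟨dx, hX⟩ := Dual.exists hx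
  obtain ⟨FM⟩ := hF.frames hX
  obtain ⟨k, hk, η, η0, hη⟩ := (kod_ne_bot_iff hK.isFr).1 h0
  obtain ⟨_, _, -, -, hb⟩ := hb
  obtain ⟨φ, φ0, hφ, -⟩ := hb _ dx hX.isFr
  obtain ⟨E, hE⟩ := Plu.zero_add_smul (d := dx) m (by omega)
  have := Frames.finite hX hF.fg FM m E fun φ => (hE φ).1
  have : Nontrivial E := ⟨⟨φ, (hE φ).2 hφ⟩, 0, fun e => φ0 (congrArg Subtype.val e)⟩
  let b := Module.finBasis K E
  obtain ⟨d, -, -, e, -⟩ := Dat.exists hY hF hc hK hX hm hk Module.finrank_pos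
    (t := fun i => (b i : M)) (fun ψ => by
      rw [← hE, show (range fun i => (b i : M)) = E.subtype '' range b from range_comp _ _,
        ← Submodule.map_span, b.span_eq, Submodule.map_subtype_top])
    (b.linearIndependent.map' E.subtype E.ker_subtype) η0 ((plu_iff hK.isFr).2 hη) ∅
  exact ⟨a, n, d, e⟩

end abs

open IntermediateField

variable {Om : Type} [Field Om] [Algebra ℂ Om] [IsAlgClosed Om] {K M : IntermediateField ℂ Om}

/-- the inequality with the variation from the statement over curves -/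
theorem cplus_of_curve (H : ∀ n, CurveIso (Fin n)) (hKM : K ≤ M) (hY : SmoothModel ℂ K)
    (hX : SmoothModel ℂ M) (hF : SmoothModel K (extendScalars hKM)) (hc : M ⊓ aclC K ≤ K)
    (h0 : kod ℂ K ≠ ⊥) : kod (aclC K) (adjoin (aclC K) (M : Set Om)) +
      max (kod ℂ K) ((Var (aclC K) (M ⊔ aclC K) : Cardinal) : WithBot Cardinal) ≤ kod ℂ M := by
  have hc' : ∀ x : extendScalars hKM, IsAlgebraic K x →
      x ∈ range (algebraMap K (extendScalars hKM)) :=
    fun x hx => ⟨⟨x, hc ⟨x.2, mem_algebraicClosure_iff.2 (isAlgebraic_iff.1 hx)⟩⟩, rfl⟩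
  rw [kod_geo_eq hKM hF.fg]
  rcases le_total (kod ℂ K) (Var (aclC K) (M ⊔ aclC K) : Cardinal) with h | h
  · rw [max_eq_right h]
    by_cases h1 : kod K (extendScalars hKM) = ⊥
    · simp [h1]
    obtain ⟨m, hm, hb⟩ := exists_big hF.fg h1
    obtain ⟨a, n, d, rfl⟩ := exists_dat hY hF hc' h0 hm hb
    obtain ⟨_, _, d', Bo, e, -, hp, ⟨Fl⟩⟩ := d.exists_flat
    exact (add_le_add_right (WithBot.coe_le_coe.2 (var_le (H n) hKM Bo.unit Bo.pos hp)) _).trans
      ((d'.end_V hX Bo Fl).kod (e ▸ hb))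
  · rw [max_eq_left h]
    have := kod_of_endOut (M := extendScalars hKM) hY hF hc' fun _ _ d => d.endOut hX
    exact this

end Pool.Agent.Lib.MP_5c318e_ag
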