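import Pool.Agent.Lib.MP_5c318e_ag.Z.KDefs
import Pool.Agent.Lib.MP_5c318e_ag.D.ReD
import Pool.Agent.Lib.MP_5c318e_ag.Ky.Tra
import Pool.Agent.Lib.MP_5c318e_ag.Ku.TopV

/-! The outputs of the towers pass to a smaller base chart with the same coordinates. -/

set_option autoImplicit false
set_option linter.unusedSectionVars false

namespace Pool.Agent.Lib.MP_5c318e_ag

open MeasureTheory Set Filter Topology Matrix

variable {δ ν K M : Type} [Fintype δ] [DecidableEq δ] [Fintype ν] [DecidableEq ν]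
  [Field K] [Algebra ℂ K] [Field M] [Algebra ℂ M] [Algebra K M] [IsScalarTower ℂ K M]

theorem Dat.Re.π_ρ {d d' : Dat δ K ν M} (h : d.Re d') (hz : ∀ i, (d'.B.z i : K) = d.B.z i)
    (b : Pt d'.B.O) : d.B.D.π (h.ρ b) = d'.B.D.π b := funext fun i => by
  rw [d.B.π_eq, d'.B.π_eq]
  exact congrArg b (Subtype.ext (hz _).symm)

theorem Dat.Re.ρ_sec {d d' : Dat δ K ν M} (h : d.Re d') (hz : ∀ i, (d'.B.z i : K) = d.B.z i)
    (b : Pt d'.B.O) :
    ∀ᶠ z in 𝓝 (d'.B.D.π b), h.ρ (d'.B.D.sec b z) = d.B.D.sec (h.ρ b) z := by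
  filter_upwards [Cht.res_germ' (Subalgebra.inclusion h.sub.le) b, d'.B.D.π_sec_ev b] with z a c
  refine a.trans ?_
  change d.B.D.sec (h.ρ b) (d.B.D.π (h.ρ _)) = _
  rw [h.π_ρ hz, c]

theorem Dat.T2On.re {d d' : Dat δ K ν M} (h : d.Re d') (hz : ∀ i, (d'.B.z i : K) = d.B.z i)
    {e : d.B.O} (H : d.T2On e) : d'.T2On (Subalgebra.inclusion h.sub.le e) := by
  have h1 := h.π_ρ hz
  have h2 := h.ρ_sec hz
  have h3 := h.Dd
  have h4 := h.m
  obtain ⟨s, c, H, hc, hH⟩ := H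
  obtain ⟨hK, hM, B, T, m, hm, r, hr, τ, _, _, k, _, η, _, _, _, _, _, _, _, _, _, _⟩ := d'
  obtain rfl : r = d.r := h.r
  refine ⟨s, c, fun b => H (h.ρ b), hc, fun b hb => ?_⟩
  obtain ⟨⟨n, κ, a1⟩, a2, a3⟩ := hH (h.ρ b) hb
  refine ⟨⟨n, κ, ?_⟩, fun a => ?_, ?_⟩
  · rw [h1] at a1
    exact a1.congr ((h2 b).mono fun z hz => congrArg H hz)
  · rw [(h3 b).1, (h3 b).2, h4]
    exact a2 a
  · rw [(h3 b).1, h4]
    exact a3

theorem Dat.T3On.re {d d' : Dat δ K ν M} (h : d.Re d') (hz : ∀ i, (d'.B.z i : K) = d.B.z i)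
    {e : d.B.O} (H : d.T3On e) : d'.T3On (Subalgebra.inclusion h.sub.le e) := by
  have h1 := h.π_ρ hz
  have h2 := h.ρ_sec hz
  have h3 := fun b G => h.int b (G := G)
  have h4 := h.m
  obtain ⟨Δ, H, hH⟩ := H
  obtain ⟨hK, hM, B, T, m, hm, r, hr, τ, _, _, k, _, η, _, _, _, _, _, _, _, _, _, _⟩ := d'
  obtain rfl : r = d.r := h.r
  refine ⟨MvPolynomial.map (Subalgebra.inclusion h.sub.le : d.B.O →+* B.O) Δ,
    fun b => H (h.ρ b), fun b hb => ?_⟩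
  obtain ⟨a1, a2⟩ := hH (h.ρ b) hb
  refine ⟨by rw [MvPolynomial.map_map]; exact a1, fun a ha => ?_⟩
  rw [MvPolynomial.eval₂_map] at ha
  obtain ⟨⟨n, κ, a3⟩, a4⟩ := a2 a ha
  refine ⟨⟨n, κ, ?_⟩, fun u => ?_⟩
  · rw [h1] at a3
    exact a3.congr ((continuous_fst.continuousAt.eventually (h2 b)).mono fun z hz =>
      congrArg (fun q => H q z.2) hz)
  · rw [a4, h4]
    refine (h3 b (fun g => ‖u ⬝ᵥ g‖ₑ ^ 2 * ‖a ⬝ᵥ g‖ₑ ^ (-(2 - (2 / d.m : ℝ)))) ?_).symm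
    exact ((continuous_const.dotProduct continuous_id).measurable.enorm.pow_const _).mul
      ((continuous_const.dotProduct continuous_id).measurable.enorm.pow_const _)

end Pool.Agent.Lib.MP_5c318e_ag
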