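import Pool.Agent.Lib.MP_5c318e_ag.Z.One
import Pool.Agent.Lib.MP_5c318e_ag.Z.TRe
import Pool.Agent.Lib.MP_5c318e_ag.N.T2K
import Pool.Agent.Lib.MP_5c318e_ag.N.T3K
import Pool.Agent.Lib.MP_5c318e_ag.Fb.Par
import Pool.Agent.Lib.MP_5c318e_ag.D.Flat
import Pool.Agent.Lib.MP_5c318e_ag.D.Tra
import Pool.Agent.Lib.MP_5c318e_ag.D.Shr
import Pool.Agent.Lib.MP_5c318e_ag.Ex.End

/-! The assembly. -/

set_option autoImplicit false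

namespace Pool.Agent.Lib.MP_5c318e_ag

variable {δ ν K M : Type} [Fintype δ] [DecidableEq δ] [Fintype ν] [DecidableEq ν]
  [Field K] [Algebra ℂ K] [Field M] [Algebra ℂ M] [Algebra K M] [IsScalarTower ℂ K M]

theorem isUnit_incl {A A' : Subalgebra ℂ K} (h : A ≤ A') {e : A} (h0 : e ≠ 0)
    (hi : (e : K)⁻¹ ∈ A') : IsUnit (Subalgebra.inclusion h e) :=
  IsUnit.of_mul_eq_one ⟨_, hi⟩ (Subtype.ext (mul_inv_cancel₀ fun x => h0 (Subtype.ext x)))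

/-- a set-up with split coordinates that carries all outputs -/
theorem Dat.exists_flat (d : Dat δ K ν M) : ∃ (a b : ℕ) (d' : Dat (Fin a ⊕ Fin b) K ν M)
    (Bo : d'.BaseOut), d'.m = d.m ∧ d'.k = d.k ∧ d'.ParData Bo.g Bo.a1 ∧
      Nonempty (d'.FlatOut Bo.g Bo.a1) := by
  classical
  obtain ⟨d1, P, M0, F, R, h1, h0, hk⟩ := d.mid
  obtain ⟨s, hs⟩ := (Subalgebra.fg_iff_finiteType R.S.O).2 R.S.ft
  obtain ⟨d2, h2, hz, hm⟩ := d1.shrink R.S.basis (insert R.g0 s)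
  have hle : R.S.O ≤ d2.B.O := hs ▸ Algebra.adjoin_le fun a ha =>
    (hm a (Finset.mem_insert_of_mem ha)).1
  obtain ⟨Bo⟩ := base_out h0 hk h2 hz hle (hm _ (Finset.mem_insert_self _ _)).2
  obtain ⟨e2, n2, t2⟩ := d2.t2
  obtain ⟨e3, n3, t3⟩ := d2.t3
  obtain ⟨d3, h3, hz3, hm3⟩ := d2.shrink d2.B.basis {(e2 : K), (e3 : K)}
  obtain ⟨Bo3, -, -⟩ := Dat.BaseOut.re d2 h3 hz3 Bo
  have hp := d3.par (t2.re h3 hz3) (t3.re h3 hz3) (isUnit_incl _ n2 (hm3 _ (by simp)).2)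
    (isUnit_incl _ n3 (hm3 _ (by simp)).2) Bo3.unit Bo3.pos Bo3.flat
  exact ⟨_, _, d3, Bo3, h3.m.trans (h2.m.trans h1.m), h3.k.trans (h2.k.trans h1.k), hp,
    Dat.ParData.flat d3 Bo3.unit Bo3.pos Bo3.flat hp⟩

theorem Dat.endOut (d : Dat δ K ν M) (hX : SmoothModel ℂ M) : EndOut d := by
  obtain ⟨_, _, d', Bo, hm, hk, -, ⟨Fl⟩⟩ := d.exists_flat
  exact EndF.change d.B.dual.isFr d.T.dual.isFr d.T.X.dual.isFr d'.B.dual.isFr d'.T.dual.isFr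
    d'.T.X.dual.isFr (hm ▸ hk ▸ d'.end_gen hX Bo Fl)

end Pool.Agent.Lib.MP_5c318e_ag
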