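import Pool.Agent.Lib.MP_5c318e_ag.T1.Main
import Pool.Agent.Lib.MP_5c318e_ag.Z.Glue
import Pool.Agent.Lib.MP_5c318e_ag.K.Arrow
import Pool.Agent.Lib.MP_5c318e_ag.Pf.Prof
import Pool.Agent.Lib.MP_5c318e_ag.Ds.Desc
import Pool.Agent.Lib.MP_5c318e_ag.Ky.Key
import Pool.Agent.Lib.MP_5c318e_ag.D.Pay
import Pool.Agent.Lib.MP_5c318e_ag.D.One
import Pool.Agent.Lib.MP_5c318e_ag.S.Top

/-! The middle part and the case of rank one. -/

set_option autoImplicit false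

namespace Pool.Agent.Lib.MP_5c318e_ag

variable {δ δ' ν K M : Type} [Fintype δ] [DecidableEq δ] [Fintype δ'] [DecidableEq δ']
  [Fintype ν] [DecidableEq ν]
  [Field K] [Algebra ℂ K] [Field M] [Algebra ℂ M] [Algebra K M] [IsScalarTower ℂ K M]

theorem EndOut.change {d : Dat δ K ν M} {d' : Dat δ' K ν M} (h : d.Re d') (H : EndOut d') :
    EndOut d :=
  EndF.change d.B.dual.isFr d.T.dual.isFr d.T.X.dual.isFr d'.B.dual.isFr d'.T.dual.isFr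
    d'.T.X.dual.isFr (h.m ▸ h.k ▸ H)

/-- the middle part -/
theorem Dat.mid (d : Dat δ K ν M) : ∃ (d1 : Dat δ K ν M) (P : d1.Pkg) (M0 : ℕ)
    (F : Prof d1.fc d1.η d1.k (d1.Dn M0) P.rk P.c) (R : Desc F), d.Re d1 ∧ 0 < M0 ∧ Key R := by
  obtain ⟨d1, h1, ⟨P⟩⟩ := d.pkg
  obtain ⟨M0, h0, ⟨F⟩⟩ := P.prof
  obtain ⟨Pk⟩ := P.hl.peak (B := d1.fc) d1.base (Dn := d1.Dn M0) (c := 1) (M := M0) fun p => by
    rw [P.nrm, one_mul]
  obtain ⟨R⟩ := exists_desc d1.base (P.lin h0) Pk F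
  exact ⟨d1, P, M0, F, R, h1, h0, key d1.base (P.lin h0) R⟩

theorem Dat.endOut_one (d : Dat δ K ν M) (hX : SmoothModel ℂ M) (hr : d.r = 1) : EndOut d := by
  obtain ⟨d1, P, M0, F, R, h1, h0, hk⟩ := d.mid
  exact EndOut.change h1 (d1.end_one hX (h1.r.trans hr) (key_out h0 hk))

end Pool.Agent.Lib.MP_5c318e_ag
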