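import Pool.Agent.Lib.MP_5c318e_ag.Z.Glue
import Pool.Agent.Lib.MP_5c318e_ag.K.Arrow

/-! Peak sections for the Hodge line of a set-up. -/

set_option autoImplicit false

namespace Pool.Agent.Lib.MP_5c318e_ag

variable {δ ν K M : Type} [Fintype δ] [DecidableEq δ] [Fintype ν] [DecidableEq ν]
  [Field K] [Algebra ℂ K] [Field M] [Algebra ℂ M] [Algebra K M] [IsScalarTower ℂ K M]

set_option linter.unusedVariables false in
theorem Dat.Pkg.peak {d : Dat δ K ν M} (P : d.Pkg) {M0 : ℕ} (h : 0 < M0) :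
    Nonempty (Peak d.fc d.η d.k (d.Dn M0) P.c) :=
  G.HL.peak (B := d.fc) P.hl d.base (c := 1) (M := M0) fun p => by rw [P.nrm, one_mul]

end Pool.Agent.Lib.MP_5c318e_ag
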